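import Mathlib

set_option autoImplicit false

namespace Pool.Agent.H.MP_c34ff3_nt

structure V5 where
  a : ℕ
  b : ℕ
  c : ℕ
  d : ℕ
  e : ℕ

structure V4 where
  a : ℕ
  b : ℕ
  c : ℕ
  d : ℕ

def dot5 (u v : V5) : ℕ := u.a * v.a + u.b * v.b + u.c * v.c + u.d * v.d + u.e * v.e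
def dot4 (u v : V4) : ℕ := u.a * v.a + u.b * v.b + u.c * v.c + u.d * v.d

structure Pt where
  i : ℕ
  t : V5
  f : V4

structure En where
  q3 : ℕ
  q4 : ℕ
  p : V5
  n : V5
  v : Bool
  i : ℕ
  h0 : V5
  g0 : V4
  h1 : V5
  g1 : V4

def pts : List Pt := [⟨0, ⟨1, 0, 1, 2, 2⟩, ⟨0, 0, 0, 0⟩⟩, ⟨1, ⟨1, 0, 2, 2, 2⟩, ⟨1, 0, 0, 0⟩⟩, ⟨2, ⟨1, 1, 1, 2, 2⟩, ⟨0, 1, 0, 0⟩⟩, ⟨3, ⟨1, 0, 0, 3, 3⟩, ⟨0, 0, 1, 0⟩⟩, ⟨4, ⟨1, 0, 0, 2, 3⟩, ⟨0, 0, 0, 1⟩⟩, ⟨5, ⟨1, 1, 2, 1, 0⟩, ⟨1, 1, 1, 2⟩⟩, ⟨6, ⟨1, 2, 2, 1, 0⟩, ⟨2, 2, 0, 1⟩⟩, ⟨7, ⟨1,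 1, 1, 1, 0⟩, ⟨2, 1, 0, 2⟩⟩, ⟨8, ⟨1, 1, 1, 2, 1⟩, ⟨2, 1, 1, 1⟩⟩, ⟨9, ⟨1, 1, 1, 1, 3⟩, ⟨1, 1, 1, 0⟩⟩, ⟨10, ⟨1, 0, 1, 3, 3⟩, ⟨1, 0, 2, 2⟩⟩, ⟨11, ⟨1, 0, 1, 2, 3⟩, ⟨1, 0, 1, 0⟩⟩, ⟨12, ⟨1, 0, 1, 1, 2⟩, ⟨0, 0, 2, 1⟩⟩, ⟨13, ⟨1, 1, 2, 2, 2⟩, ⟨2, 1, 0, 1⟩⟩, ⟨14, ⟨1, 1, 2, 3, 1⟩, ⟨1, 1, 2, 1⟩⟩, ⟨15, ⟨1, 1, 2, 0, 1⟩, ⟨2, 1, 1, 0⟩⟩]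

def xp : Pt := ⟨16, ⟨1, 0, 2, 2, 2⟩, ⟨1, 0, 2, 1⟩⟩

def fac : List (V5 × V5) := [(⟨0, 0, 1, 0, 0⟩, ⟨0, 1, 0, 0, 0⟩), (⟨0, 3, 0, 0, 2⟩, ⟨2, 0, 0, 1, 0⟩), (⟨8, 0, 0, 1, 0⟩, ⟨0, 0, 3, 0, 2⟩), (⟨0, 0, 1, 1, 0⟩, ⟨2, 0, 0, 0, 0⟩), (⟨7, 0, 0, 0, 0⟩, ⟨0, 3, 0, 1, 1⟩), (⟨0, 3, 0, 1, 1⟩, ⟨2, 0, 1, 0, 0⟩), (⟨0, 0, 1, 1, 0⟩, ⟨1, 1, 0, 0, 0⟩), (⟨0, 4, 1, 0, 3⟩, ⟨3, 0, 0, 2, 0⟩), (⟨8, 0, 0, 0, 0⟩, ⟨0, 0, 2, 1, 1⟩), (⟨3, 0, 1, 0, 0⟩, ⟨0, 2, 0, 1, 0⟩), (⟨2, 1, 0, 1, 0⟩, ⟨0, 0, 1, 0, 1⟩), (⟨6, 0, 0, 0, 0⟩, ⟨0, 2, 0, 1, 1⟩), (⟨11,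 0, 0, 1, 0⟩, ⟨0, 3, 3, 0, 2⟩), (⟨1, 0, 0, 0, 2⟩, ⟨0, 0, 0, 1, 0⟩), (⟨0, 2, 1, 0, 1⟩, ⟨3, 0, 0, 0, 0⟩), (⟨0, 0, 0, 1, 1⟩, ⟨1, 0, 0, 0, 0⟩), (⟨1, 1, 0, 1, 0⟩, ⟨0, 0, 0, 0, 1⟩), (⟨4, 0, 0, 0, 0⟩, ⟨0, 0, 1, 0, 1⟩), (⟨1, 0, 1, 0, 1⟩, ⟨0, 1, 0, 1, 0⟩), (⟨0, 2, 0, 0, 1⟩, ⟨0, 0, 0, 1, 0⟩), (⟨0, 2, 0, 1, 1⟩, ⟨3, 0, 0, 0, 0⟩)]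

def tb0 : List (List En) := [
  [⟨6, 9, ⟨0, 3, 3, 2, 0⟩, ⟨1, 0, 0, 0, 1⟩, true, 4, ⟨0, 0, 0, 0, 0⟩, ⟨0, 0, 0, 0⟩, ⟨0, 0, 0, 0, 0⟩, ⟨0, 0, 0, 0⟩⟩,
   ⟨7, 9, ⟨0, 2, 2, 0, 0⟩, ⟨0, 0, 0, 0, 0⟩, false, 0, ⟨0, 0, 0, 3, 7⟩, ⟨0, 0, 1, 0⟩, ⟨0, 0, 0, 0, 0⟩, ⟨0, 0, 0, 0⟩⟩,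
   ⟨8, 9, ⟨0, 2, 2, 0, 0⟩, ⟨0, 0, 0, 0, 0⟩, false, 0, ⟨0, 0, 0, 3, 7⟩, ⟨0, 0, 1, 0⟩, ⟨0, 0, 0, 0, 0⟩, ⟨0, 0, 0, 0⟩⟩,
   ⟨9, 9, ⟨6, 4, 5, 0, 4⟩, ⟨0, 0, 0, 6, 0⟩, true, 3, ⟨0, 0, 0, 0, 0⟩, ⟨0, 0, 0, 0⟩, ⟨0, 0, 0, 0, 0⟩, ⟨0, 0, 0, 0⟩⟩],
  [⟨5, 8, ⟨0, 4, 2, 2, 0⟩, ⟨4, 0, 0, 0, 0⟩, false, 0, ⟨0, 0, 0, 0, 6⟩, ⟨0, 0, 2, 0⟩, ⟨0, 0, 0, 0, 0⟩, ⟨0, 0, 0, 0⟩⟩,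
   ⟨6, 8, ⟨0, 3, 1, 0, 1⟩, ⟨3, 0, 0, 0, 0⟩, false, 0, ⟨0, 0, 0, 6, 3⟩, ⟨0, 0, 0, 1⟩, ⟨0, 0, 0, 0, 0⟩, ⟨0, 0, 0, 0⟩⟩,
   ⟨6, 9, ⟨4, 2, 0, 1, 0⟩, ⟨0, 0, 0, 0, 2⟩, false, 0, ⟨0, 0, 3, 0, 0⟩, ⟨1, 0, 0, 0⟩, ⟨0, 0, 0, 0, 0⟩, ⟨0, 0, 0, 0⟩⟩,
   ⟨7, 8, ⟨0, 3, 1, 0, 1⟩, ⟨3, 0, 0, 0, 0⟩, false, 0, ⟨0, 0, 1, 3, 1⟩, ⟨0, 0, 1, 0⟩, ⟨0, 0, 0, 0, 0⟩, ⟨0, 0, 0, 0⟩⟩,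
   ⟨7, 9, ⟨3, 1, 0, 0, 0⟩, ⟨0, 0, 0, 0, 1⟩, false, 0, ⟨0, 0, 3, 0, 0⟩, ⟨1, 0, 0, 0⟩, ⟨0, 0, 0, 0, 0⟩, ⟨0, 0, 0, 0⟩⟩,
   ⟨8, 8, ⟨0, 9, 2, 0, 5⟩, ⟨6, 0, 0, 3, 0⟩, false, 0, ⟨0, 0, 8, 5, 0⟩, ⟨0, 0, 2, 0⟩, ⟨0, 0, 0, 0, 0⟩, ⟨0, 0, 0, 0⟩⟩,
   ⟨8, 9, ⟨3, 1, 0, 0, 0⟩, ⟨0, 0, 0, 0, 1⟩, false, 0, ⟨0, 0, 3, 0, 0⟩, ⟨1, 0, 0, 0⟩, ⟨0, 0, 0, 0, 0⟩, ⟨0, 0, 0, 0⟩⟩,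
   ⟨9, 9, ⟨9, 1, 0, 0, 0⟩, ⟨0, 0, 0, 2, 1⟩, false, 0, ⟨0, 0, 3, 0, 0⟩, ⟨1, 0, 0, 0⟩, ⟨0, 0, 0, 0, 0⟩, ⟨0, 0, 0, 0⟩⟩],
  [⟨4, 7, ⟨0, 4, 2, 2, 0⟩, ⟨4, 0, 0, 0, 0⟩, false, 0, ⟨0, 0, 0, 0, 6⟩, ⟨0, 0, 2, 0⟩, ⟨0, 0, 0, 0, 0⟩, ⟨0, 0, 0, 0⟩⟩,
   ⟨5, 7, ⟨0, 3, 1, 0, 1⟩, ⟨3, 0, 0, 0, 0⟩, false, 0, ⟨0, 0, 1, 3, 1⟩, ⟨0, 0, 1, 0⟩, ⟨0, 0, 0, 0, 0⟩, ⟨0, 0, 0, 0⟩⟩,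
   ⟨5, 8, ⟨1, 2, 0, 1, 0⟩, ⟨0, 0, 0, 0, 1⟩, false, 0, ⟨0, 0, 3, 0, 3⟩, ⟨1, 0, 0, 0⟩, ⟨0, 0, 0, 0, 0⟩, ⟨0, 0, 0, 0⟩⟩,
   ⟨6, 7, ⟨0, 3, 1, 0, 1⟩, ⟨3, 0, 0, 0, 0⟩, false, 0, ⟨0, 0, 0, 6, 3⟩, ⟨0, 0, 0, 1⟩, ⟨0, 0, 0, 0, 0⟩, ⟨0, 0, 0, 0⟩⟩,
   ⟨6, 8, ⟨0, 1, 0, 0, 0⟩, ⟨0, 0, 0, 0, 0⟩, false, 0, ⟨0, 0, 6, 0, 6⟩, ⟨2, 0, 0, 0⟩, ⟨0, 0, 6, 0, 6⟩, ⟨2, 0, 0, 0⟩⟩,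
   ⟨6, 9, ⟨4, 2, 0, 1, 0⟩, ⟨0, 0, 0, 0, 2⟩, false, 0, ⟨0, 0, 3, 0, 0⟩, ⟨1, 0, 0, 0⟩, ⟨0, 0, 0, 0, 0⟩, ⟨0, 0, 0, 0⟩⟩,
   ⟨7, 7, ⟨0, 9, 2, 0, 5⟩, ⟨6, 0, 0, 3, 0⟩, false, 0, ⟨0, 0, 8, 5, 0⟩, ⟨0, 0, 2, 0⟩, ⟨0, 0, 0, 0, 0⟩, ⟨0, 0, 0, 0⟩⟩,
   ⟨7, 8, ⟨0, 1, 0, 0, 0⟩, ⟨0, 0, 0, 0, 0⟩, false, 0, ⟨0, 0, 6, 0, 6⟩, ⟨2, 0, 0, 0⟩, ⟨0, 0, 6, 0, 6⟩, ⟨2, 0, 0, 0⟩⟩,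
   ⟨7, 9, ⟨3, 1, 0, 0, 0⟩, ⟨0, 0, 0, 0, 1⟩, false, 0, ⟨0, 0, 3, 0, 0⟩, ⟨1, 0, 0, 0⟩, ⟨0, 0, 0, 0, 0⟩, ⟨0, 0, 0, 0⟩⟩,
   ⟨8, 8, ⟨0, 3, 0, 0, 1⟩, ⟨0, 0, 0, 1, 0⟩, false, 0, ⟨0, 0, 3, 3, 0⟩, ⟨1, 0, 0, 0⟩, ⟨0, 0, 3, 3, 0⟩, ⟨1, 0, 0, 0⟩⟩,
   ⟨8, 9, ⟨3, 1, 0, 0, 0⟩, ⟨0, 0, 0, 0, 1⟩, false, 0, ⟨0, 0, 3, 0, 0⟩, ⟨1, 0, 0, 0⟩, ⟨0, 0, 0, 0, 0⟩, ⟨0, 0, 0, 0⟩⟩,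
   ⟨9, 9, ⟨9, 1, 0, 0, 0⟩, ⟨0, 0, 0, 2, 1⟩, false, 0, ⟨0, 0, 3, 0, 0⟩, ⟨1, 0, 0, 0⟩, ⟨0, 0, 0, 0, 0⟩, ⟨0, 0, 0, 0⟩⟩],
  [⟨3, 6, ⟨0, 12, 0, 5, 2⟩, ⟨9, 0, 0, 0, 0⟩, true, 12, ⟨0, 0, 0, 0, 0⟩, ⟨0, 0, 0, 0⟩, ⟨0, 0, 0, 0, 0⟩, ⟨0, 0, 0, 0⟩⟩,
   ⟨4, 6, ⟨0, 5, 1, 0, 2⟩, ⟨5, 0, 0, 0, 0⟩, false, 0, ⟨0, 0, 0, 6, 3⟩, ⟨0, 0, 0, 1⟩, ⟨0, 0, 0, 0, 0⟩, ⟨0, 0, 0, 0⟩⟩,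
   ⟨4, 7, ⟨3, 3, 0, 2, 0⟩, ⟨0, 0, 1, 0, 2⟩, false, 0, ⟨0, 0, 0, 3, 0⟩, ⟨2, 0, 0, 1⟩, ⟨0, 0, 0, 0, 0⟩, ⟨0, 0, 0, 0⟩⟩,
   ⟨5, 6, ⟨0, 5, 1, 0, 2⟩, ⟨5, 0, 0, 0, 0⟩, false, 0, ⟨0, 0, 0, 6, 3⟩, ⟨0, 0, 0, 1⟩, ⟨0, 0, 0, 0, 0⟩, ⟨0, 0, 0, 0⟩⟩,
   ⟨5, 7, ⟨0, 1, 0, 0, 0⟩, ⟨0, 0, 0, 0, 0⟩, false, 0, ⟨3, 0, 3, 0, 6⟩, ⟨1, 0, 1, 1⟩, ⟨3, 0, 3, 0, 6⟩, ⟨1, 0, 1, 1⟩⟩,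
   ⟨5, 8, ⟨3, 3, 0, 2, 0⟩, ⟨0, 0, 1, 0, 2⟩, false, 0, ⟨0, 0, 0, 3, 0⟩, ⟨2, 0, 0, 1⟩, ⟨0, 0, 0, 0, 0⟩, ⟨0, 0, 0, 0⟩⟩,
   ⟨6, 6, ⟨0, 14, 2, 0, 8⟩, ⟨10, 0, 0, 4, 0⟩, true, 0, ⟨0, 0, 0, 0, 0⟩, ⟨0, 0, 0, 0⟩, ⟨0, 0, 0, 0, 0⟩, ⟨0, 0, 0, 0⟩⟩,
   ⟨6, 7, ⟨0, 1, 0, 0, 0⟩, ⟨0, 0, 0, 0, 0⟩, false, 0, ⟨3, 0, 3, 0, 6⟩, ⟨1, 0, 1, 1⟩, ⟨3, 0, 3, 0, 6⟩, ⟨1, 0, 1, 1⟩⟩,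
   ⟨6, 8, ⟨0, 1, 0, 0, 0⟩, ⟨0, 0, 0, 0, 0⟩, false, 0, ⟨3, 0, 3, 0, 6⟩, ⟨1, 0, 1, 1⟩, ⟨3, 0, 3, 0, 6⟩, ⟨1, 0, 1, 1⟩⟩,
   ⟨6, 9, ⟨10, 3, 0, 2, 0⟩, ⟨0, 0, 2, 0, 4⟩, true, 11, ⟨0, 0, 0, 0, 0⟩, ⟨0, 0, 0, 0⟩, ⟨0, 0, 0, 0, 0⟩, ⟨0, 0, 0, 0⟩⟩,
   ⟨7, 7, ⟨0, 3, 0, 0, 1⟩, ⟨0, 0, 0, 1, 0⟩, false, 0, ⟨6, 0, 6, 3, 0⟩, ⟨2, 0, 2, 2⟩, ⟨6, 0, 6, 3, 0⟩, ⟨2, 0, 2, 2⟩⟩,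
   ⟨7, 8, ⟨0, 1, 0, 0, 0⟩, ⟨0, 0, 0, 0, 0⟩, false, 0, ⟨3, 0, 3, 0, 6⟩, ⟨1, 0, 1, 1⟩, ⟨3, 0, 3, 0, 6⟩, ⟨1, 0, 1, 1⟩⟩,
   ⟨7, 9, ⟨7, 1, 0, 0, 0⟩, ⟨0, 0, 1, 0, 2⟩, false, 0, ⟨0, 0, 0, 3, 8⟩, ⟨0, 0, 1, 0⟩, ⟨0, 0, 0, 0, 0⟩, ⟨0, 0, 0, 0⟩⟩,
   ⟨8, 8, ⟨0, 3, 0, 0, 1⟩, ⟨0, 0, 0, 1, 0⟩, false, 0, ⟨6, 0, 6, 3, 0⟩, ⟨2, 0, 2, 2⟩, ⟨6, 0, 6, 3, 0⟩, ⟨2, 0, 2, 2⟩⟩,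
   ⟨8, 9, ⟨7, 1, 0, 0, 0⟩, ⟨0, 0, 1, 0, 2⟩, false, 0, ⟨0, 0, 0, 3, 8⟩, ⟨0, 0, 1, 0⟩, ⟨0, 0, 0, 0, 0⟩, ⟨0, 0, 0, 0⟩⟩,
   ⟨9, 9, ⟨21, 1, 0, 0, 0⟩, ⟨0, 0, 3, 3, 3⟩, true, 10, ⟨0, 0, 0, 0, 0⟩, ⟨0, 0, 0, 0⟩, ⟨0, 0, 0, 0, 0⟩, ⟨0, 0, 0, 0⟩⟩],
  [⟨4, 6, ⟨0, 7, 0, 2, 1⟩, ⟨2, 0, 2, 0, 0⟩, false, 0, ⟨8, 0, 3, 0, 8⟩, ⟨1, 0, 0, 0⟩, ⟨8, 0, 3, 0, 8⟩, ⟨1, 0, 0, 0⟩⟩,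
   ⟨5, 6, ⟨0, 3, 0, 0, 1⟩, ⟨2, 0, 0, 0, 0⟩, false, 0, ⟨8, 0, 3, 0, 8⟩, ⟨1, 0, 0, 0⟩, ⟨8, 0, 3, 0, 8⟩, ⟨1, 0, 0, 0⟩⟩,
   ⟨5, 7, ⟨2, 2, 0, 1, 0⟩, ⟨0, 0, 1, 0, 1⟩, false, 0, ⟨8, 0, 8, 4, 8⟩, ⟨1, 0, 0, 0⟩, ⟨8, 0, 8, 4, 8⟩, ⟨1, 0, 0, 0⟩⟩,
   ⟨6, 6, ⟨0, 8, 0, 0, 4⟩, ⟨4, 0, 0, 2, 0⟩, false, 0, ⟨8, 0, 3, 8, 0⟩, ⟨1, 0, 0, 0⟩, ⟨8, 0, 3, 8, 0⟩, ⟨1, 0, 0, 0⟩⟩,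
   ⟨6, 7, ⟨0, 1, 0, 0, 0⟩, ⟨0, 0, 0, 0, 0⟩, false, 0, ⟨0, 0, 6, 0, 6⟩, ⟨2, 0, 0, 0⟩, ⟨0, 0, 6, 0, 6⟩, ⟨2, 0, 0, 0⟩⟩,
   ⟨6, 8, ⟨6, 2, 0, 1, 0⟩, ⟨0, 0, 2, 0, 2⟩, false, 0, ⟨0, 0, 0, 0, 3⟩, ⟨2, 0, 1, 0⟩, ⟨0, 0, 0, 0, 3⟩, ⟨2, 0, 1, 0⟩⟩,
   ⟨7, 7, ⟨0, 3, 0, 0, 1⟩, ⟨0, 0, 0, 1, 0⟩, false, 0, ⟨0, 0, 3, 3, 0⟩, ⟨1, 0, 0, 0⟩, ⟨0, 0, 3, 3, 0⟩, ⟨1, 0, 0, 0⟩⟩,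
   ⟨7, 8, ⟨4, 1, 0, 0, 0⟩, ⟨0, 0, 1, 0, 1⟩, false, 0, ⟨0, 0, 0, 0, 6⟩, ⟨1, 0, 2, 2⟩, ⟨0, 0, 0, 3, 3⟩, ⟨1, 0, 1, 0⟩⟩,
   ⟨8, 8, ⟨12, 3, 0, 0, 0⟩, ⟨0, 0, 3, 2, 1⟩, false, 0, ⟨0, 0, 0, 0, 3⟩, ⟨2, 0, 2, 0⟩, ⟨0, 0, 0, 0, 0⟩, ⟨0, 0, 2, 1⟩⟩],
  [⟨5, 6, ⟨0, 7, 0, 2, 1⟩, ⟨2, 0, 2, 0, 0⟩, false, 0, ⟨8, 0, 3, 0, 8⟩, ⟨1, 0, 0, 0⟩, ⟨8, 0, 3, 0, 8⟩, ⟨1, 0, 0, 0⟩⟩,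
   ⟨6, 6, ⟨0, 8, 0, 0, 4⟩, ⟨4, 0, 0, 2, 0⟩, false, 0, ⟨8, 0, 3, 8, 0⟩, ⟨1, 0, 0, 0⟩, ⟨8, 0, 3, 8, 0⟩, ⟨1, 0, 0, 0⟩⟩,
   ⟨6, 7, ⟨6, 2, 0, 1, 0⟩, ⟨0, 0, 2, 0, 2⟩, false, 0, ⟨0, 0, 0, 0, 3⟩, ⟨2, 0, 1, 0⟩, ⟨0, 0, 0, 0, 0⟩, ⟨0, 0, 0, 1⟩⟩,
   ⟨7, 7, ⟨12, 3, 0, 0, 0⟩, ⟨0, 0, 3, 2, 1⟩, false, 0, ⟨0, 0, 0, 0, 3⟩, ⟨2, 0, 2, 0⟩, ⟨0, 0, 0, 0, 3⟩, ⟨2, 0, 2, 0⟩⟩],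
  [⟨6, 6, ⟨18, 12, 0, 0, 0⟩, ⟨0, 0, 9, 0, 0⟩, true, 1, ⟨0, 0, 0, 0, 0⟩, ⟨0, 0, 0, 0⟩, ⟨0, 0, 0, 0, 0⟩, ⟨0, 0, 1, 0⟩⟩]]

def tb1 : List (List En) := [
  [],
  [⟨5, 6, ⟨0, 1, 3, 1, 1⟩, ⟨5, 0, 0, 0, 0⟩, false, 0, ⟨0, 0, 0, 3, 7⟩, ⟨0, 1, 0, 0⟩, ⟨0, 0, 0, 0, 0⟩, ⟨0, 0, 0, 0⟩⟩,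
   ⟨5, 7, ⟨0, 0, 2, 1, 0⟩, ⟨2, 1, 0, 0, 0⟩, false, 0, ⟨8, 5, 0, 2, 8⟩, ⟨1, 0, 0, 0⟩, ⟨0, 0, 0, 0, 0⟩, ⟨0, 0, 0, 0⟩⟩,
   ⟨5, 8, ⟨0, 0, 2, 1, 0⟩, ⟨2, 1, 0, 0, 0⟩, false, 0, ⟨8, 5, 0, 2, 8⟩, ⟨1, 0, 0, 0⟩, ⟨0, 0, 0, 0, 0⟩, ⟨0, 0, 0, 0⟩⟩,
   ⟨5, 9, ⟨2, 0, 2, 2, 0⟩, ⟨0, 0, 0, 0, 2⟩, false, 0, ⟨0, 0, 0, 6, 2⟩, ⟨1, 0, 0, 0⟩, ⟨0, 0, 0, 0, 0⟩, ⟨0, 0, 0, 0⟩⟩,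
   ⟨6, 6, ⟨0, 1, 2, 0, 1⟩, ⟨3, 0, 0, 0, 0⟩, false, 0, ⟨0, 0, 3, 0, 0⟩, ⟨0, 1, 0, 0⟩, ⟨0, 0, 0, 0, 0⟩, ⟨0, 0, 0, 0⟩⟩,
   ⟨6, 7, ⟨0, 0, 1, 0, 0⟩, ⟨0, 1, 0, 0, 0⟩, false, 0, ⟨3, 6, 0, 0, 0⟩, ⟨2, 0, 1, 1⟩, ⟨0, 0, 0, 0, 0⟩, ⟨0, 0, 0, 0⟩⟩,
   ⟨6, 8, ⟨0, 0, 1, 0, 0⟩, ⟨0, 1, 0, 0, 0⟩, false, 0, ⟨3, 6, 0, 0, 0⟩, ⟨2, 0, 1, 1⟩, ⟨0, 0, 0, 0, 0⟩, ⟨0, 0, 0, 0⟩⟩,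
   ⟨6, 9, ⟨3, 0, 1, 0, 0⟩, ⟨0, 1, 0, 0, 1⟩, false, 0, ⟨0, 0, 3, 0, 0⟩, ⟨1, 0, 0, 0⟩, ⟨0, 0, 0, 0, 0⟩, ⟨0, 0, 0, 0⟩⟩,
   ⟨7, 6, ⟨0, 5, 4, 0, 5⟩, ⟨6, 0, 0, 3, 0⟩, false, 0, ⟨0, 0, 0, 3, 6⟩, ⟨0, 1, 0, 0⟩, ⟨0, 0, 0, 0, 0⟩, ⟨0, 0, 0, 0⟩⟩,
   ⟨7, 7, ⟨0, 0, 1, 0, 0⟩, ⟨0, 1, 0, 0, 0⟩, false, 0, ⟨3, 6, 0, 0, 0⟩, ⟨2, 0, 1, 1⟩, ⟨0, 0, 0, 0, 0⟩, ⟨0, 0, 0, 0⟩⟩,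
   ⟨7, 8, ⟨0, 0, 1, 0, 0⟩, ⟨0, 1, 0, 0, 0⟩, false, 0, ⟨3, 6, 0, 0, 0⟩, ⟨2, 0, 1, 1⟩, ⟨0, 0, 0, 0, 0⟩, ⟨0, 0, 0, 0⟩⟩,
   ⟨7, 9, ⟨9, 0, 1, 0, 0⟩, ⟨0, 3, 0, 1, 2⟩, false, 0, ⟨0, 0, 8, 7, 2⟩, ⟨1, 0, 0, 0⟩, ⟨0, 0, 0, 0, 0⟩, ⟨0, 0, 0, 0⟩⟩,
   ⟨8, 7, ⟨3, 0, 3, 0, 1⟩, ⟨0, 3, 0, 2, 0⟩, false, 0, ⟨0, 0, 0, 1, 7⟩, ⟨0, 1, 2, 0⟩, ⟨0, 0, 0, 0, 0⟩, ⟨0, 0, 0, 0⟩⟩,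
   ⟨8, 8, ⟨9, 0, 2, 0, 0⟩, ⟨0, 5, 0, 2, 1⟩, false, 0, ⟨0, 0, 8, 2, 0⟩, ⟨0, 1, 2, 0⟩, ⟨0, 0, 0, 0, 0⟩, ⟨0, 0, 0, 0⟩⟩],
  [⟨4, 5, ⟨0, 2, 2, 1, 1⟩, ⟨5, 0, 0, 0, 0⟩, false, 0, ⟨0, 1, 2, 3, 8⟩, ⟨0, 0, 0, 1⟩, ⟨0, 0, 0, 0, 0⟩, ⟨0, 0, 0, 0⟩⟩,
   ⟨4, 6, ⟨0, 0, 1, 1, 0⟩, ⟨2, 0, 0, 0, 0⟩, false, 0, ⟨8, 6, 5, 5, 3⟩, ⟨1, 0, 1, 0⟩, ⟨0, 0, 0, 0, 0⟩, ⟨0, 0, 0, 0⟩⟩,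
   ⟨4, 7, ⟨0, 0, 1, 1, 0⟩, ⟨2, 0, 0, 0, 0⟩, false, 0, ⟨0, 3, 0, 0, 0⟩, ⟨0, 1, 0, 0⟩, ⟨0, 0, 0, 0, 0⟩, ⟨0, 0, 0, 0⟩⟩,
   ⟨4, 8, ⟨0, 1, 1, 2, 0⟩, ⟨1, 0, 0, 0, 1⟩, false, 0, ⟨0, 0, 6, 0, 6⟩, ⟨2, 0, 0, 0⟩, ⟨0, 0, 0, 0, 0⟩, ⟨0, 0, 0, 0⟩⟩,
   ⟨5, 5, ⟨0, 2, 1, 0, 1⟩, ⟨3, 0, 0, 0, 0⟩, false, 0, ⟨0, 0, 6, 0, 6⟩, ⟨0, 2, 0, 0⟩, ⟨0, 0, 0, 0, 0⟩, ⟨0, 0, 0, 0⟩⟩,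
   ⟨5, 6, ⟨0, 0, 0, 0, 0⟩, ⟨0, 0, 0, 0, 0⟩, false, 0, ⟨6, 0, 3, 0, 0⟩, ⟨1, 0, 2, 2⟩, ⟨6, 0, 3, 0, 0⟩, ⟨1, 0, 2, 2⟩⟩,
   ⟨5, 7, ⟨0, 0, 0, 0, 0⟩, ⟨0, 0, 0, 0, 0⟩, false, 0, ⟨6, 0, 3, 0, 0⟩, ⟨1, 0, 2, 2⟩, ⟨6, 0, 3, 0, 0⟩, ⟨1, 0, 2, 2⟩⟩,
   ⟨5, 8, ⟨0, 0, 0, 0, 0⟩, ⟨0, 0, 0, 0, 0⟩, false, 0, ⟨6, 0, 3, 0, 0⟩, ⟨1, 0, 2, 2⟩, ⟨6, 0, 3, 0, 0⟩, ⟨1, 0, 2, 2⟩⟩,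
   ⟨5, 9, ⟨4, 1, 0, 1, 0⟩, ⟨0, 0, 0, 0, 2⟩, false, 0, ⟨0, 0, 3, 0, 0⟩, ⟨1, 0, 0, 0⟩, ⟨0, 0, 0, 0, 0⟩, ⟨0, 0, 0, 0⟩⟩,
   ⟨6, 5, ⟨0, 6, 2, 0, 4⟩, ⟨6, 0, 0, 2, 0⟩, false, 0, ⟨0, 0, 8, 1, 4⟩, ⟨0, 0, 2, 0⟩, ⟨0, 0, 0, 0, 0⟩, ⟨0, 0, 0, 0⟩⟩,
   ⟨6, 6, ⟨0, 0, 0, 0, 0⟩, ⟨0, 0, 0, 0, 0⟩, false, 0, ⟨6, 0, 3, 0, 0⟩, ⟨1, 0, 2, 2⟩, ⟨6, 0, 3, 0, 0⟩, ⟨1, 0, 2, 2⟩⟩,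
   ⟨6, 7, ⟨0, 0, 0, 0, 0⟩, ⟨0, 0, 0, 0, 0⟩, false, 0, ⟨6, 0, 3, 0, 0⟩, ⟨1, 0, 2, 2⟩, ⟨6, 0, 3, 0, 0⟩, ⟨1, 0, 2, 2⟩⟩,
   ⟨6, 8, ⟨0, 0, 0, 0, 0⟩, ⟨0, 0, 0, 0, 0⟩, false, 0, ⟨6, 0, 3, 0, 0⟩, ⟨1, 0, 2, 2⟩, ⟨6, 0, 3, 0, 0⟩, ⟨1, 0, 2, 2⟩⟩,
   ⟨6, 9, ⟨3, 0, 0, 0, 0⟩, ⟨0, 0, 0, 0, 1⟩, false, 0, ⟨0, 3, 0, 0, 0⟩, ⟨0, 1, 0, 0⟩, ⟨0, 0, 0, 0, 0⟩, ⟨0, 0, 0, 0⟩⟩,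
   ⟨7, 6, ⟨0, 0, 0, 0, 0⟩, ⟨0, 0, 0, 0, 0⟩, false, 0, ⟨6, 0, 3, 0, 0⟩, ⟨1, 0, 2, 2⟩, ⟨6, 0, 3, 0, 0⟩, ⟨1, 0, 2, 2⟩⟩,
   ⟨7, 7, ⟨0, 0, 0, 0, 0⟩, ⟨0, 0, 0, 0, 0⟩, false, 0, ⟨6, 0, 3, 0, 0⟩, ⟨1, 0, 2, 2⟩, ⟨6, 0, 3, 0, 0⟩, ⟨1, 0, 2, 2⟩⟩,
   ⟨7, 8, ⟨0, 0, 0, 0, 0⟩, ⟨0, 0, 0, 0, 0⟩, false, 0, ⟨6, 0, 3, 0, 0⟩, ⟨1, 0, 2, 2⟩, ⟨6, 0, 3, 0, 0⟩, ⟨1, 0, 2, 2⟩⟩,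
   ⟨7, 9, ⟨9, 0, 0, 0, 0⟩, ⟨0, 2, 0, 1, 2⟩, false, 0, ⟨0, 8, 3, 1, 0⟩, ⟨0, 0, 1, 0⟩, ⟨0, 0, 0, 0, 0⟩, ⟨0, 0, 0, 0⟩⟩,
   ⟨8, 7, ⟨0, 0, 0, 0, 0⟩, ⟨0, 0, 0, 0, 0⟩, false, 0, ⟨6, 0, 3, 0, 0⟩, ⟨1, 0, 2, 2⟩, ⟨6, 0, 3, 0, 0⟩, ⟨1, 0, 2, 2⟩⟩,
   ⟨8, 8, ⟨6, 0, 0, 0, 0⟩, ⟨0, 2, 0, 1, 1⟩, false, 0, ⟨0, 8, 3, 7, 1⟩, ⟨2, 0, 2, 0⟩, ⟨0, 0, 0, 0, 0⟩, ⟨0, 0, 0, 0⟩⟩,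
   ⟨9, 7, ⟨6, 2, 3, 0, 4⟩, ⟨0, 0, 0, 6, 0⟩, false, 0, ⟨0, 8, 2, 0, 0⟩, ⟨1, 0, 0, 0⟩, ⟨0, 0, 0, 0, 0⟩, ⟨0, 0, 0, 0⟩⟩],
  [⟨3, 4, ⟨0, 6, 2, 2, 3⟩, ⟨10, 0, 0, 0, 0⟩, false, 0, ⟨0, 1, 2, 0, 8⟩, ⟨0, 1, 0, 0⟩, ⟨0, 0, 0, 0, 0⟩, ⟨0, 0, 0, 0⟩⟩,
   ⟨3, 5, ⟨0, 0, 1, 1, 0⟩, ⟨2, 0, 0, 0, 0⟩, false, 0, ⟨8, 6, 5, 5, 3⟩, ⟨1, 0, 1, 0⟩, ⟨0, 0, 0, 0, 0⟩, ⟨0, 0, 0, 0⟩⟩,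
   ⟨3, 6, ⟨0, 0, 1, 1, 0⟩, ⟨2, 0, 0, 0, 0⟩, false, 0, ⟨8, 6, 5, 5, 3⟩, ⟨1, 0, 1, 0⟩, ⟨0, 0, 0, 0, 0⟩, ⟨0, 0, 0, 0⟩⟩,
   ⟨3, 7, ⟨1, 2, 0, 3, 0⟩, ⟨0, 0, 0, 0, 2⟩, false, 0, ⟨0, 0, 0, 6, 3⟩, ⟨2, 0, 0, 1⟩, ⟨0, 0, 0, 0, 0⟩, ⟨0, 0, 0, 0⟩⟩,
   ⟨4, 4, ⟨0, 4, 1, 0, 2⟩, ⟨5, 0, 0, 0, 0⟩, false, 0, ⟨0, 1, 2, 0, 8⟩, ⟨0, 1, 0, 0⟩, ⟨0, 0, 0, 0, 0⟩, ⟨0, 0, 0, 0⟩⟩,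
   ⟨4, 5, ⟨0, 0, 0, 0, 0⟩, ⟨0, 0, 0, 0, 0⟩, false, 0, ⟨0, 3, 0, 0, 0⟩, ⟨0, 1, 0, 0⟩, ⟨0, 3, 0, 0, 0⟩, ⟨0, 1, 0, 0⟩⟩,
   ⟨4, 6, ⟨0, 0, 0, 0, 0⟩, ⟨0, 0, 0, 0, 0⟩, false, 0, ⟨0, 3, 0, 0, 0⟩, ⟨0, 1, 0, 0⟩, ⟨0, 3, 0, 0, 0⟩, ⟨0, 1, 0, 0⟩⟩,
   ⟨4, 7, ⟨0, 0, 0, 0, 0⟩, ⟨0, 0, 0, 0, 0⟩, false, 0, ⟨0, 3, 0, 0, 0⟩, ⟨0, 1, 0, 0⟩, ⟨0, 3, 0, 0, 0⟩, ⟨0, 1, 0, 0⟩⟩,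
   ⟨4, 8, ⟨3, 2, 0, 2, 0⟩, ⟨0, 0, 1, 0, 2⟩, false, 0, ⟨0, 0, 6, 6, 3⟩, ⟨0, 1, 0, 0⟩, ⟨0, 0, 0, 0, 0⟩, ⟨0, 0, 0, 0⟩⟩,
   ⟨5, 4, ⟨0, 11, 2, 0, 7⟩, ⟨10, 0, 0, 3, 0⟩, false, 0, ⟨0, 0, 0, 3, 6⟩, ⟨0, 1, 0, 0⟩, ⟨0, 0, 0, 0, 0⟩, ⟨0, 0, 0, 0⟩⟩,
   ⟨5, 5, ⟨0, 0, 0, 0, 0⟩, ⟨0, 0, 0, 0, 0⟩, false, 0, ⟨0, 3, 0, 0, 0⟩, ⟨0, 1, 0, 0⟩, ⟨0, 3, 0, 0, 0⟩, ⟨0, 1, 0, 0⟩⟩,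
   ⟨5, 6, ⟨0, 0, 0, 0, 0⟩, ⟨0, 0, 0, 0, 0⟩, false, 0, ⟨0, 3, 0, 0, 0⟩, ⟨0, 1, 0, 0⟩, ⟨0, 3, 0, 0, 0⟩, ⟨0, 1, 0, 0⟩⟩,
   ⟨5, 7, ⟨0, 0, 0, 0, 0⟩, ⟨0, 0, 0, 0, 0⟩, false, 0, ⟨0, 3, 0, 0, 0⟩, ⟨0, 1, 0, 0⟩, ⟨0, 3, 0, 0, 0⟩, ⟨0, 1, 0, 0⟩⟩,
   ⟨5, 8, ⟨0, 0, 0, 0, 0⟩, ⟨0, 0, 0, 0, 0⟩, false, 0, ⟨0, 3, 0, 0, 0⟩, ⟨0, 1, 0, 0⟩, ⟨0, 3, 0, 0, 0⟩, ⟨0, 1, 0, 0⟩⟩,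
   ⟨5, 9, ⟨10, 2, 0, 2, 0⟩, ⟨0, 0, 2, 0, 4⟩, false, 0, ⟨0, 0, 0, 6, 2⟩, ⟨0, 1, 0, 0⟩, ⟨0, 0, 0, 0, 0⟩, ⟨0, 0, 0, 0⟩⟩,
   ⟨6, 5, ⟨0, 0, 0, 0, 0⟩, ⟨0, 0, 0, 0, 0⟩, false, 0, ⟨0, 3, 0, 0, 0⟩, ⟨0, 1, 0, 0⟩, ⟨0, 3, 0, 0, 0⟩, ⟨0, 1, 0, 0⟩⟩,
   ⟨6, 6, ⟨0, 0, 0, 0, 0⟩, ⟨0, 0, 0, 0, 0⟩, false, 0, ⟨0, 3, 0, 0, 0⟩, ⟨0, 1, 0, 0⟩, ⟨0, 3, 0, 0, 0⟩, ⟨0, 1, 0, 0⟩⟩,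
   ⟨6, 7, ⟨0, 0, 0, 0, 0⟩, ⟨0, 0, 0, 0, 0⟩, false, 0, ⟨0, 3, 0, 0, 0⟩, ⟨0, 1, 0, 0⟩, ⟨0, 3, 0, 0, 0⟩, ⟨0, 1, 0, 0⟩⟩,
   ⟨6, 8, ⟨0, 0, 0, 0, 0⟩, ⟨0, 0, 0, 0, 0⟩, false, 0, ⟨0, 3, 0, 0, 0⟩, ⟨0, 1, 0, 0⟩, ⟨0, 3, 0, 0, 0⟩, ⟨0, 1, 0, 0⟩⟩,
   ⟨6, 9, ⟨7, 0, 0, 0, 0⟩, ⟨0, 0, 1, 0, 2⟩, false, 0, ⟨0, 3, 0, 0, 0⟩, ⟨0, 1, 0, 0⟩, ⟨0, 0, 0, 0, 0⟩, ⟨0, 0, 0, 0⟩⟩,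
   ⟨7, 6, ⟨0, 0, 0, 0, 0⟩, ⟨0, 0, 0, 0, 0⟩, false, 0, ⟨0, 3, 0, 0, 0⟩, ⟨0, 1, 0, 0⟩, ⟨0, 3, 0, 0, 0⟩, ⟨0, 1, 0, 0⟩⟩,
   ⟨7, 7, ⟨0, 0, 0, 0, 0⟩, ⟨0, 0, 0, 0, 0⟩, false, 0, ⟨0, 3, 0, 0, 0⟩, ⟨0, 1, 0, 0⟩, ⟨0, 3, 0, 0, 0⟩, ⟨0, 1, 0, 0⟩⟩,
   ⟨7, 8, ⟨0, 0, 0, 0, 0⟩, ⟨0, 0, 0, 0, 0⟩, false, 0, ⟨0, 3, 0, 0, 0⟩, ⟨0, 1, 0, 0⟩, ⟨0, 3, 0, 0, 0⟩, ⟨0, 1, 0, 0⟩⟩,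
   ⟨7, 9, ⟨13, 0, 0, 0, 0⟩, ⟨0, 2, 1, 1, 3⟩, false, 0, ⟨0, 1, 3, 8, 0⟩, ⟨0, 1, 0, 0⟩, ⟨0, 0, 0, 0, 0⟩, ⟨0, 0, 0, 0⟩⟩,
   ⟨8, 6, ⟨0, 6, 1, 0, 4⟩, ⟨3, 0, 0, 3, 0⟩, false, 0, ⟨0, 1, 0, 1, 8⟩, ⟨1, 0, 0, 0⟩, ⟨0, 0, 0, 0, 0⟩, ⟨0, 0, 0, 0⟩⟩,
   ⟨8, 7, ⟨0, 0, 0, 0, 0⟩, ⟨0, 0, 0, 0, 0⟩, false, 0, ⟨0, 3, 0, 0, 0⟩, ⟨0, 1, 0, 0⟩, ⟨0, 3, 0, 0, 0⟩, ⟨0, 1, 0, 0⟩⟩,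
   ⟨8, 8, ⟨6, 0, 0, 0, 0⟩, ⟨0, 2, 0, 1, 1⟩, false, 0, ⟨0, 0, 0, 3, 3⟩, ⟨0, 1, 0, 0⟩, ⟨0, 0, 0, 0, 0⟩, ⟨0, 0, 0, 0⟩⟩,
   ⟨9, 7, ⟨6, 0, 0, 0, 0⟩, ⟨0, 0, 0, 2, 0⟩, false, 0, ⟨0, 1, 3, 7, 2⟩, ⟨1, 0, 0, 0⟩, ⟨0, 0, 0, 0, 0⟩, ⟨0, 0, 0, 0⟩⟩],
  [⟨2, 5, ⟨0, 6, 0, 4, 1⟩, ⟨5, 0, 1, 0, 0⟩, false, 0, ⟨0, 0, 0, 3, 0⟩, ⟨0, 0, 0, 1⟩, ⟨0, 0, 0, 0, 0⟩, ⟨0, 0, 0, 0⟩⟩,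
   ⟨3, 4, ⟨0, 7, 0, 2, 3⟩, ⟨7, 0, 1, 0, 0⟩, false, 0, ⟨0, 0, 1, 1, 8⟩, ⟨1, 0, 0, 0⟩, ⟨0, 0, 0, 0, 0⟩, ⟨0, 0, 0, 0⟩⟩,
   ⟨3, 5, ⟨0, 0, 0, 0, 0⟩, ⟨0, 0, 0, 0, 0⟩, false, 0, ⟨6, 0, 3, 0, 0⟩, ⟨1, 0, 2, 2⟩, ⟨6, 0, 3, 0, 0⟩, ⟨1, 0, 2, 2⟩⟩,
   ⟨3, 6, ⟨2, 1, 0, 1, 0⟩, ⟨0, 0, 1, 0, 1⟩, false, 0, ⟨8, 1, 5, 1, 5⟩, ⟨1, 0, 0, 2⟩, ⟨8, 1, 5, 1, 5⟩, ⟨1, 0, 0, 2⟩⟩,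
   ⟨4, 4, ⟨0, 2, 0, 0, 1⟩, ⟨2, 0, 0, 0, 0⟩, false, 0, ⟨8, 7, 3, 6, 2⟩, ⟨1, 0, 2, 0⟩, ⟨8, 7, 3, 6, 2⟩, ⟨1, 0, 2, 0⟩⟩,
   ⟨4, 5, ⟨0, 0, 0, 0, 0⟩, ⟨0, 0, 0, 0, 0⟩, false, 0, ⟨6, 0, 3, 0, 0⟩, ⟨1, 0, 2, 2⟩, ⟨6, 0, 3, 0, 0⟩, ⟨1, 0, 2, 2⟩⟩,
   ⟨4, 6, ⟨0, 0, 0, 0, 0⟩, ⟨0, 0, 0, 0, 0⟩, false, 0, ⟨6, 0, 3, 0, 0⟩, ⟨1, 0, 2, 2⟩, ⟨6, 0, 3, 0, 0⟩, ⟨1, 0, 2, 2⟩⟩,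
   ⟨4, 7, ⟨2, 1, 0, 1, 0⟩, ⟨0, 0, 1, 0, 1⟩, false, 0, ⟨8, 1, 5, 1, 5⟩, ⟨1, 0, 0, 2⟩, ⟨0, 3, 0, 0, 0⟩, ⟨0, 1, 0, 0⟩⟩,
   ⟨5, 4, ⟨0, 5, 0, 0, 3⟩, ⟨4, 0, 0, 1, 0⟩, false, 0, ⟨0, 0, 0, 3, 6⟩, ⟨0, 1, 0, 0⟩, ⟨8, 5, 3, 8, 0⟩, ⟨1, 0, 2, 0⟩⟩,
   ⟨5, 5, ⟨0, 0, 0, 0, 0⟩, ⟨0, 0, 0, 0, 0⟩, false, 0, ⟨6, 0, 3, 0, 0⟩, ⟨1, 0, 2, 2⟩, ⟨6, 0, 3, 0, 0⟩, ⟨1, 0, 2, 2⟩⟩,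
   ⟨5, 6, ⟨0, 0, 0, 0, 0⟩, ⟨0, 0, 0, 0, 0⟩, false, 0, ⟨6, 0, 3, 0, 0⟩, ⟨1, 0, 2, 2⟩, ⟨6, 0, 3, 0, 0⟩, ⟨1, 0, 2, 2⟩⟩,
   ⟨5, 7, ⟨0, 0, 0, 0, 0⟩, ⟨0, 0, 0, 0, 0⟩, false, 0, ⟨6, 0, 3, 0, 0⟩, ⟨1, 0, 2, 2⟩, ⟨6, 0, 3, 0, 0⟩, ⟨1, 0, 2, 2⟩⟩,
   ⟨5, 8, ⟨6, 1, 0, 1, 0⟩, ⟨0, 0, 2, 0, 2⟩, false, 0, ⟨0, 0, 0, 6, 0⟩, ⟨1, 1, 0, 0⟩, ⟨0, 0, 0, 6, 0⟩, ⟨1, 1, 0, 0⟩⟩,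
   ⟨6, 5, ⟨0, 0, 0, 0, 0⟩, ⟨0, 0, 0, 0, 0⟩, false, 0, ⟨6, 0, 3, 0, 0⟩, ⟨1, 0, 2, 2⟩, ⟨6, 0, 3, 0, 0⟩, ⟨1, 0, 2, 2⟩⟩,
   ⟨6, 6, ⟨0, 0, 0, 0, 0⟩, ⟨0, 0, 0, 0, 0⟩, false, 0, ⟨6, 0, 3, 0, 0⟩, ⟨1, 0, 2, 2⟩, ⟨6, 0, 3, 0, 0⟩, ⟨1, 0, 2, 2⟩⟩,
   ⟨6, 7, ⟨0, 0, 0, 0, 0⟩, ⟨0, 0, 0, 0, 0⟩, false, 0, ⟨6, 0, 3, 0, 0⟩, ⟨1, 0, 2, 2⟩, ⟨6, 0, 3, 0, 0⟩, ⟨1, 0, 2, 2⟩⟩,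
   ⟨6, 8, ⟨4, 0, 0, 0, 0⟩, ⟨0, 0, 1, 0, 1⟩, false, 0, ⟨0, 3, 0, 0, 0⟩, ⟨0, 1, 0, 0⟩, ⟨1, 6, 2, 6, 8⟩, ⟨2, 0, 2, 0⟩⟩,
   ⟨7, 5, ⟨0, 9, 1, 0, 6⟩, ⟨5, 0, 0, 4, 0⟩, false, 0, ⟨0, 0, 1, 0, 4⟩, ⟨2, 0, 0, 0⟩, ⟨0, 0, 0, 0, 0⟩, ⟨0, 0, 0, 0⟩⟩,
   ⟨7, 6, ⟨0, 0, 0, 0, 0⟩, ⟨0, 0, 0, 0, 0⟩, false, 0, ⟨6, 0, 3, 0, 0⟩, ⟨1, 0, 2, 2⟩, ⟨6, 0, 3, 0, 0⟩, ⟨1, 0, 2, 2⟩⟩,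
   ⟨7, 7, ⟨0, 0, 0, 0, 0⟩, ⟨0, 0, 0, 0, 0⟩, false, 0, ⟨6, 0, 3, 0, 0⟩, ⟨1, 0, 2, 2⟩, ⟨6, 0, 3, 0, 0⟩, ⟨1, 0, 2, 2⟩⟩,
   ⟨7, 8, ⟨4, 0, 0, 0, 0⟩, ⟨0, 0, 1, 0, 1⟩, false, 0, ⟨1, 6, 2, 6, 8⟩, ⟨2, 0, 2, 0⟩, ⟨0, 3, 0, 0, 0⟩, ⟨0, 1, 0, 0⟩⟩,
   ⟨8, 6, ⟨0, 2, 0, 0, 1⟩, ⟨0, 0, 0, 1, 0⟩, false, 0, ⟨0, 1, 0, 1, 8⟩, ⟨0, 1, 0, 0⟩, ⟨0, 1, 0, 1, 8⟩, ⟨0, 1, 0, 0⟩⟩,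
   ⟨8, 7, ⟨0, 0, 0, 0, 0⟩, ⟨0, 0, 0, 0, 0⟩, false, 0, ⟨6, 0, 3, 0, 0⟩, ⟨1, 0, 2, 2⟩, ⟨6, 0, 3, 0, 0⟩, ⟨1, 0, 2, 2⟩⟩,
   ⟨8, 8, ⟨18, 0, 0, 0, 0⟩, ⟨0, 2, 3, 2, 3⟩, false, 0, ⟨0, 1, 6, 1, 0⟩, ⟨0, 2, 0, 0⟩, ⟨0, 0, 0, 0, 0⟩, ⟨0, 0, 0, 0⟩⟩,
   ⟨9, 7, ⟨14, 0, 0, 0, 0⟩, ⟨0, 0, 2, 3, 1⟩, false, 0, ⟨0, 0, 3, 8, 0⟩, ⟨0, 1, 0, 0⟩, ⟨0, 0, 0, 0, 0⟩, ⟨0, 0, 0, 0⟩⟩],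
  [⟨3, 5, ⟨0, 4, 0, 2, 0⟩, ⟨0, 0, 2, 0, 0⟩, false, 0, ⟨0, 0, 0, 0, 6⟩, ⟨1, 0, 0, 1⟩, ⟨0, 0, 0, 6, 0⟩, ⟨1, 1, 0, 2⟩⟩,
   ⟨4, 4, ⟨0, 5, 0, 1, 2⟩, ⟨4, 0, 1, 0, 0⟩, false, 0, ⟨8, 7, 3, 0, 8⟩, ⟨1, 0, 0, 0⟩, ⟨8, 7, 3, 0, 8⟩, ⟨1, 0, 0, 0⟩⟩,
   ⟨4, 5, ⟨0, 0, 0, 0, 0⟩, ⟨0, 0, 0, 0, 0⟩, false, 0, ⟨6, 0, 3, 0, 0⟩, ⟨1, 0, 2, 2⟩, ⟨6, 0, 3, 0, 0⟩, ⟨1, 0, 2, 2⟩⟩,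
   ⟨4, 6, ⟨2, 1, 0, 1, 0⟩, ⟨0, 0, 1, 0, 1⟩, false, 0, ⟨8, 1, 5, 1, 5⟩, ⟨1, 0, 0, 2⟩, ⟨0, 3, 0, 0, 0⟩, ⟨0, 1, 0, 0⟩⟩,
   ⟨5, 4, ⟨0, 5, 0, 0, 3⟩, ⟨4, 0, 0, 1, 0⟩, false, 0, ⟨8, 5, 3, 8, 0⟩, ⟨1, 0, 2, 0⟩, ⟨8, 5, 3, 8, 0⟩, ⟨1, 0, 2, 0⟩⟩,
   ⟨5, 5, ⟨0, 0, 0, 0, 0⟩, ⟨0, 0, 0, 0, 0⟩, false, 0, ⟨6, 0, 3, 0, 0⟩, ⟨1, 0, 2, 2⟩, ⟨6, 0, 3, 0, 0⟩, ⟨1, 0, 2, 2⟩⟩,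
   ⟨5, 6, ⟨0, 0, 0, 0, 0⟩, ⟨0, 0, 0, 0, 0⟩, false, 0, ⟨6, 0, 3, 0, 0⟩, ⟨1, 0, 2, 2⟩, ⟨6, 0, 3, 0, 0⟩, ⟨1, 0, 2, 2⟩⟩,
   ⟨5, 7, ⟨14, 1, 0, 2, 0⟩, ⟨0, 0, 5, 0, 4⟩, false, 0, ⟨0, 0, 0, 0, 3⟩, ⟨2, 1, 0, 0⟩, ⟨0, 0, 0, 0, 3⟩, ⟨2, 1, 0, 0⟩⟩,
   ⟨6, 5, ⟨0, 0, 0, 0, 0⟩, ⟨0, 0, 0, 0, 0⟩, false, 0, ⟨6, 0, 3, 0, 0⟩, ⟨1, 0, 2, 2⟩, ⟨6, 0, 3, 0, 0⟩, ⟨1, 0, 2, 2⟩⟩,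
   ⟨6, 6, ⟨0, 0, 0, 0, 0⟩, ⟨0, 0, 0, 0, 0⟩, false, 0, ⟨6, 0, 3, 0, 0⟩, ⟨1, 0, 2, 2⟩, ⟨6, 0, 3, 0, 0⟩, ⟨1, 0, 2, 2⟩⟩,
   ⟨6, 7, ⟨4, 0, 0, 0, 0⟩, ⟨0, 0, 1, 0, 1⟩, false, 0, ⟨1, 6, 2, 6, 8⟩, ⟨2, 0, 2, 0⟩, ⟨1, 6, 2, 6, 8⟩, ⟨2, 0, 2, 0⟩⟩,
   ⟨7, 5, ⟨0, 5, 0, 0, 3⟩, ⟨2, 0, 0, 2, 0⟩, false, 0, ⟨8, 1, 3, 8, 0⟩, ⟨1, 0, 0, 0⟩, ⟨8, 1, 3, 8, 0⟩, ⟨1, 0, 0, 0⟩⟩,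
   ⟨7, 6, ⟨0, 0, 0, 0, 0⟩, ⟨0, 0, 0, 0, 0⟩, false, 0, ⟨6, 0, 3, 0, 0⟩, ⟨1, 0, 2, 2⟩, ⟨6, 0, 3, 0, 0⟩, ⟨1, 0, 2, 2⟩⟩,
   ⟨7, 7, ⟨12, 0, 0, 0, 0⟩, ⟨0, 0, 3, 1, 2⟩, false, 0, ⟨1, 6, 8, 8, 0⟩, ⟨2, 0, 0, 0⟩, ⟨1, 6, 8, 8, 0⟩, ⟨2, 0, 0, 0⟩⟩,
   ⟨8, 6, ⟨8, 2, 0, 0, 0⟩, ⟨0, 0, 2, 2, 0⟩, false, 0, ⟨0, 0, 6, 0, 6⟩, ⟨2, 1, 0, 0⟩, ⟨0, 0, 6, 0, 6⟩, ⟨2, 1, 0, 0⟩⟩],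
  [⟨4, 5, ⟨10, 4, 0, 3, 0⟩, ⟨0, 0, 6, 0, 2⟩, false, 0, ⟨8, 3, 2, 0, 0⟩, ⟨1, 0, 0, 0⟩, ⟨8, 3, 2, 0, 0⟩, ⟨1, 0, 0, 0⟩⟩,
   ⟨5, 4, ⟨0, 8, 0, 0, 4⟩, ⟨4, 0, 2, 0, 0⟩, false, 0, ⟨0, 0, 0, 3, 6⟩, ⟨0, 1, 0, 0⟩, ⟨0, 0, 0, 3, 6⟩, ⟨0, 1, 0, 0⟩⟩,
   ⟨5, 5, ⟨2, 0, 0, 0, 0⟩, ⟨0, 0, 1, 0, 0⟩, false, 0, ⟨1, 3, 0, 8, 2⟩, ⟨1, 0, 0, 0⟩, ⟨1, 3, 0, 8, 2⟩, ⟨1, 0, 0, 0⟩⟩,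
   ⟨6, 5, ⟨2, 0, 0, 0, 0⟩, ⟨0, 0, 1, 0, 0⟩, false, 0, ⟨1, 3, 0, 8, 2⟩, ⟨1, 0, 0, 0⟩, ⟨1, 3, 0, 8, 2⟩, ⟨1, 0, 0, 0⟩⟩,
   ⟨6, 6, ⟨22, 0, 0, 0, 0⟩, ⟨0, 0, 7, 0, 4⟩, false, 0, ⟨8, 3, 2, 0, 0⟩, ⟨1, 0, 0, 0⟩, ⟨8, 3, 2, 0, 0⟩, ⟨1, 0, 0, 0⟩⟩,
   ⟨7, 5, ⟨8, 5, 0, 0, 2⟩, ⟨0, 0, 3, 3, 0⟩, false, 0, ⟨0, 0, 0, 0, 6⟩, ⟨1, 1, 0, 0⟩, ⟨0, 0, 0, 0, 6⟩, ⟨1, 1, 0, 0⟩⟩]]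

def tb2 : List (List En) := [
  [],
  [],
  [⟨4, 3, ⟨0, 1, 3, 1, 1⟩, ⟨5, 0, 0, 0, 0⟩, false, 0, ⟨0, 0, 0, 3, 7⟩, ⟨0, 1, 0, 0⟩, ⟨0, 0, 0, 0, 0⟩, ⟨0, 0, 0, 0⟩⟩,
   ⟨4, 4, ⟨0, 0, 2, 1, 0⟩, ⟨2, 1, 0, 0, 0⟩, false, 0, ⟨8, 5, 0, 2, 8⟩, ⟨1, 0, 0, 0⟩, ⟨0, 0, 0, 0, 0⟩, ⟨0, 0, 0, 0⟩⟩,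
   ⟨4, 5, ⟨0, 0, 2, 1, 0⟩, ⟨2, 1, 0, 0, 0⟩, false, 0, ⟨8, 5, 0, 2, 8⟩, ⟨1, 0, 0, 0⟩, ⟨0, 0, 0, 0, 0⟩, ⟨0, 0, 0, 0⟩⟩,
   ⟨4, 6, ⟨0, 0, 2, 1, 0⟩, ⟨2, 1, 0, 0, 0⟩, false, 0, ⟨0, 0, 3, 0, 0⟩, ⟨0, 1, 0, 0⟩, ⟨0, 0, 0, 0, 0⟩, ⟨0, 0, 0, 0⟩⟩,
   ⟨4, 7, ⟨0, 0, 2, 1, 0⟩, ⟨2, 1, 0, 0, 0⟩, false, 0, ⟨8, 5, 0, 2, 8⟩, ⟨1, 0, 0, 0⟩, ⟨0, 0, 0, 0, 0⟩, ⟨0, 0, 0, 0⟩⟩,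
   ⟨4, 8, ⟨0, 0, 2, 1, 0⟩, ⟨2, 1, 0, 0, 0⟩, false, 0, ⟨8, 5, 0, 2, 8⟩, ⟨1, 0, 0, 0⟩, ⟨0, 0, 0, 0, 0⟩, ⟨0, 0, 0, 0⟩⟩,
   ⟨4, 9, ⟨2, 0, 2, 2, 0⟩, ⟨0, 0, 0, 0, 2⟩, false, 0, ⟨0, 0, 0, 6, 2⟩, ⟨1, 0, 0, 0⟩, ⟨0, 0, 0, 0, 0⟩, ⟨0, 0, 0, 0⟩⟩,
   ⟨5, 3, ⟨0, 5, 4, 0, 5⟩, ⟨6, 0, 0, 3, 0⟩, false, 0, ⟨0, 0, 0, 3, 6⟩, ⟨0, 1, 0, 0⟩, ⟨0, 0, 0, 0, 0⟩, ⟨0, 0, 0, 0⟩⟩,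
   ⟨5, 4, ⟨0, 0, 1, 0, 0⟩, ⟨0, 1, 0, 0, 0⟩, false, 0, ⟨3, 6, 0, 0, 0⟩, ⟨2, 0, 1, 1⟩, ⟨0, 0, 0, 0, 0⟩, ⟨0, 0, 0, 0⟩⟩,
   ⟨5, 5, ⟨0, 0, 1, 0, 0⟩, ⟨0, 1, 0, 0, 0⟩, false, 0, ⟨3, 6, 0, 0, 0⟩, ⟨2, 0, 1, 1⟩, ⟨0, 0, 0, 0, 0⟩, ⟨0, 0, 0, 0⟩⟩,
   ⟨5, 6, ⟨0, 0, 1, 0, 0⟩, ⟨0, 1, 0, 0, 0⟩, false, 0, ⟨3, 6, 0, 0, 0⟩, ⟨2, 0, 1, 1⟩, ⟨0, 0, 0, 0, 0⟩, ⟨0, 0, 0, 0⟩⟩,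
   ⟨5, 7, ⟨0, 0, 1, 0, 0⟩, ⟨0, 1, 0, 0, 0⟩, false, 0, ⟨3, 6, 0, 0, 0⟩, ⟨2, 0, 1, 1⟩, ⟨0, 0, 0, 0, 0⟩, ⟨0, 0, 0, 0⟩⟩,
   ⟨5, 8, ⟨0, 0, 1, 0, 0⟩, ⟨0, 1, 0, 0, 0⟩, false, 0, ⟨3, 6, 0, 0, 0⟩, ⟨2, 0, 1, 1⟩, ⟨0, 0, 0, 0, 0⟩, ⟨0, 0, 0, 0⟩⟩,
   ⟨5, 9, ⟨9, 0, 1, 0, 0⟩, ⟨0, 3, 0, 1, 2⟩, false, 0, ⟨0, 0, 8, 7, 2⟩, ⟨1, 0, 0, 0⟩, ⟨0, 0, 0, 0, 0⟩, ⟨0, 0, 0, 0⟩⟩,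
   ⟨6, 4, ⟨0, 0, 2, 0, 1⟩, ⟨0, 1, 0, 1, 0⟩, false, 0, ⟨6, 6, 0, 3, 0⟩, ⟨0, 0, 2, 1⟩, ⟨0, 0, 0, 0, 0⟩, ⟨0, 0, 0, 0⟩⟩,
   ⟨6, 5, ⟨0, 0, 1, 0, 0⟩, ⟨0, 1, 0, 0, 0⟩, false, 0, ⟨3, 6, 0, 0, 0⟩, ⟨2, 0, 1, 1⟩, ⟨0, 0, 0, 0, 0⟩, ⟨0, 0, 0, 0⟩⟩,
   ⟨6, 6, ⟨0, 0, 1, 0, 0⟩, ⟨0, 1, 0, 0, 0⟩, false, 0, ⟨3, 6, 0, 0, 0⟩, ⟨2, 0, 1, 1⟩, ⟨0, 0, 0, 0, 0⟩, ⟨0, 0, 0, 0⟩⟩,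
   ⟨6, 7, ⟨0, 0, 1, 0, 0⟩, ⟨0, 1, 0, 0, 0⟩, false, 0, ⟨3, 6, 0, 0, 0⟩, ⟨2, 0, 1, 1⟩, ⟨0, 0, 0, 0, 0⟩, ⟨0, 0, 0, 0⟩⟩,
   ⟨6, 8, ⟨6, 0, 1, 0, 0⟩, ⟨0, 3, 0, 1, 1⟩, false, 0, ⟨6, 1, 0, 8, 2⟩, ⟨1, 0, 0, 0⟩, ⟨0, 0, 0, 0, 0⟩, ⟨0, 0, 0, 0⟩⟩,
   ⟨7, 5, ⟨3, 0, 3, 0, 1⟩, ⟨0, 3, 0, 2, 0⟩, false, 0, ⟨0, 0, 0, 1, 7⟩, ⟨0, 1, 2, 0⟩, ⟨0, 0, 0, 0, 0⟩, ⟨0, 0, 0, 0⟩⟩,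
   ⟨7, 6, ⟨3, 0, 2, 0, 0⟩, ⟨0, 3, 0, 1, 0⟩, false, 0, ⟨0, 0, 0, 3, 6⟩, ⟨0, 0, 0, 1⟩, ⟨0, 0, 0, 0, 0⟩, ⟨0, 0, 0, 0⟩⟩,
   ⟨7, 7, ⟨9, 0, 2, 0, 0⟩, ⟨0, 5, 0, 2, 1⟩, false, 0, ⟨0, 0, 8, 2, 0⟩, ⟨0, 1, 2, 0⟩, ⟨0, 0, 0, 0, 0⟩, ⟨0, 0, 0, 0⟩⟩],
  [⟨3, 2, ⟨0, 6, 2, 2, 3⟩, ⟨10, 0, 0, 0, 0⟩, false, 0, ⟨0, 1, 2, 0, 8⟩, ⟨0, 1, 0, 0⟩, ⟨0, 0, 0, 0, 0⟩, ⟨0, 0, 0, 0⟩⟩,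
   ⟨3, 3, ⟨0, 0, 1, 1, 0⟩, ⟨2, 0, 0, 0, 0⟩, false, 0, ⟨8, 6, 5, 5, 3⟩, ⟨1, 0, 1, 0⟩, ⟨0, 0, 0, 0, 0⟩, ⟨0, 0, 0, 0⟩⟩,
   ⟨3, 4, ⟨0, 0, 1, 1, 0⟩, ⟨2, 0, 0, 0, 0⟩, false, 0, ⟨8, 6, 5, 5, 3⟩, ⟨1, 0, 1, 0⟩, ⟨0, 0, 0, 0, 0⟩, ⟨0, 0, 0, 0⟩⟩,
   ⟨3, 5, ⟨0, 0, 1, 1, 0⟩, ⟨2, 0, 0, 0, 0⟩, false, 0, ⟨0, 3, 0, 0, 0⟩, ⟨0, 1, 0, 0⟩, ⟨0, 0, 0, 0, 0⟩, ⟨0, 0, 0, 0⟩⟩,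
   ⟨3, 6, ⟨0, 0, 1, 1, 0⟩, ⟨2, 0, 0, 0, 0⟩, false, 0, ⟨8, 6, 5, 5, 3⟩, ⟨1, 0, 1, 0⟩, ⟨0, 0, 0, 0, 0⟩, ⟨0, 0, 0, 0⟩⟩,
   ⟨3, 7, ⟨0, 0, 1, 1, 0⟩, ⟨2, 0, 0, 0, 0⟩, false, 0, ⟨8, 6, 5, 5, 3⟩, ⟨1, 0, 1, 0⟩, ⟨0, 0, 0, 0, 0⟩, ⟨0, 0, 0, 0⟩⟩,
   ⟨3, 8, ⟨1, 2, 0, 3, 0⟩, ⟨0, 0, 0, 0, 2⟩, false, 0, ⟨0, 0, 0, 6, 3⟩, ⟨2, 0, 0, 1⟩, ⟨0, 0, 0, 0, 0⟩, ⟨0, 0, 0, 0⟩⟩,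
   ⟨4, 2, ⟨0, 11, 2, 0, 7⟩, ⟨10, 0, 0, 3, 0⟩, false, 0, ⟨0, 0, 0, 3, 6⟩, ⟨0, 1, 0, 0⟩, ⟨0, 0, 0, 0, 0⟩, ⟨0, 0, 0, 0⟩⟩,
   ⟨4, 3, ⟨0, 0, 0, 0, 0⟩, ⟨0, 0, 0, 0, 0⟩, false, 0, ⟨0, 3, 0, 0, 0⟩, ⟨0, 1, 0, 0⟩, ⟨0, 3, 0, 0, 0⟩, ⟨0, 1, 0, 0⟩⟩,
   ⟨4, 4, ⟨0, 0, 0, 0, 0⟩, ⟨0, 0, 0, 0, 0⟩, false, 0, ⟨0, 3, 0, 0, 0⟩, ⟨0, 1, 0, 0⟩, ⟨0, 3, 0, 0, 0⟩, ⟨0, 1, 0, 0⟩⟩,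
   ⟨4, 5, ⟨0, 0, 0, 0, 0⟩, ⟨0, 0, 0, 0, 0⟩, false, 0, ⟨0, 3, 0, 0, 0⟩, ⟨0, 1, 0, 0⟩, ⟨0, 3, 0, 0, 0⟩, ⟨0, 1, 0, 0⟩⟩,
   ⟨4, 6, ⟨0, 0, 0, 0, 0⟩, ⟨0, 0, 0, 0, 0⟩, false, 0, ⟨0, 3, 0, 0, 0⟩, ⟨0, 1, 0, 0⟩, ⟨0, 3, 0, 0, 0⟩, ⟨0, 1, 0, 0⟩⟩,
   ⟨4, 7, ⟨0, 0, 0, 0, 0⟩, ⟨0, 0, 0, 0, 0⟩, false, 0, ⟨0, 3, 0, 0, 0⟩, ⟨0, 1, 0, 0⟩, ⟨0, 3, 0, 0, 0⟩, ⟨0, 1, 0, 0⟩⟩,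
   ⟨4, 8, ⟨0, 0, 0, 0, 0⟩, ⟨0, 0, 0, 0, 0⟩, false, 0, ⟨0, 3, 0, 0, 0⟩, ⟨0, 1, 0, 0⟩, ⟨0, 3, 0, 0, 0⟩, ⟨0, 1, 0, 0⟩⟩,
   ⟨4, 9, ⟨10, 2, 0, 2, 0⟩, ⟨0, 0, 2, 0, 4⟩, false, 0, ⟨0, 0, 0, 6, 2⟩, ⟨0, 1, 0, 0⟩, ⟨0, 0, 0, 0, 0⟩, ⟨0, 0, 0, 0⟩⟩,
   ⟨5, 3, ⟨0, 0, 0, 0, 0⟩, ⟨0, 0, 0, 0, 0⟩, false, 0, ⟨0, 3, 0, 0, 0⟩, ⟨0, 1, 0, 0⟩, ⟨0, 3, 0, 0, 0⟩, ⟨0, 1, 0, 0⟩⟩,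
   ⟨5, 4, ⟨0, 0, 0, 0, 0⟩, ⟨0, 0, 0, 0, 0⟩, false, 0, ⟨0, 3, 0, 0, 0⟩, ⟨0, 1, 0, 0⟩, ⟨0, 3, 0, 0, 0⟩, ⟨0, 1, 0, 0⟩⟩,
   ⟨5, 5, ⟨0, 0, 0, 0, 0⟩, ⟨0, 0, 0, 0, 0⟩, false, 0, ⟨0, 3, 0, 0, 0⟩, ⟨0, 1, 0, 0⟩, ⟨0, 3, 0, 0, 0⟩, ⟨0, 1, 0, 0⟩⟩,
   ⟨5, 6, ⟨0, 0, 0, 0, 0⟩, ⟨0, 0, 0, 0, 0⟩, false, 0, ⟨0, 3, 0, 0, 0⟩, ⟨0, 1, 0, 0⟩, ⟨0, 3, 0, 0, 0⟩, ⟨0, 1, 0, 0⟩⟩,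
   ⟨5, 7, ⟨0, 0, 0, 0, 0⟩, ⟨0, 0, 0, 0, 0⟩, false, 0, ⟨0, 3, 0, 0, 0⟩, ⟨0, 1, 0, 0⟩, ⟨0, 3, 0, 0, 0⟩, ⟨0, 1, 0, 0⟩⟩,
   ⟨5, 8, ⟨0, 0, 0, 0, 0⟩, ⟨0, 0, 0, 0, 0⟩, false, 0, ⟨0, 3, 0, 0, 0⟩, ⟨0, 1, 0, 0⟩, ⟨0, 3, 0, 0, 0⟩, ⟨0, 1, 0, 0⟩⟩,
   ⟨5, 9, ⟨13, 0, 0, 0, 0⟩, ⟨0, 2, 1, 1, 3⟩, false, 0, ⟨0, 1, 3, 8, 0⟩, ⟨0, 1, 0, 0⟩, ⟨0, 0, 0, 0, 0⟩, ⟨0, 0, 0, 0⟩⟩,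
   ⟨6, 4, ⟨0, 0, 0, 0, 0⟩, ⟨0, 0, 0, 0, 0⟩, false, 0, ⟨0, 3, 0, 0, 0⟩, ⟨0, 1, 0, 0⟩, ⟨0, 3, 0, 0, 0⟩, ⟨0, 1, 0, 0⟩⟩,
   ⟨6, 5, ⟨0, 0, 0, 0, 0⟩, ⟨0, 0, 0, 0, 0⟩, false, 0, ⟨0, 3, 0, 0, 0⟩, ⟨0, 1, 0, 0⟩, ⟨0, 3, 0, 0, 0⟩, ⟨0, 1, 0, 0⟩⟩,
   ⟨6, 6, ⟨0, 0, 0, 0, 0⟩, ⟨0, 0, 0, 0, 0⟩, false, 0, ⟨0, 3, 0, 0, 0⟩, ⟨0, 1, 0, 0⟩, ⟨0, 3, 0, 0, 0⟩, ⟨0, 1, 0, 0⟩⟩,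
   ⟨6, 7, ⟨0, 0, 0, 0, 0⟩, ⟨0, 0, 0, 0, 0⟩, false, 0, ⟨0, 3, 0, 0, 0⟩, ⟨0, 1, 0, 0⟩, ⟨0, 3, 0, 0, 0⟩, ⟨0, 1, 0, 0⟩⟩,
   ⟨6, 8, ⟨6, 0, 0, 0, 0⟩, ⟨0, 2, 0, 1, 1⟩, false, 0, ⟨6, 1, 0, 8, 2⟩, ⟨1, 0, 0, 1⟩, ⟨0, 0, 0, 0, 0⟩, ⟨0, 0, 0, 0⟩⟩,
   ⟨7, 4, ⟨0, 4, 2, 0, 4⟩, ⟨3, 0, 0, 3, 0⟩, false, 0, ⟨0, 1, 4, 1, 0⟩, ⟨0, 2, 1, 0⟩, ⟨0, 0, 0, 0, 0⟩, ⟨0, 0, 0, 0⟩⟩,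
   ⟨7, 5, ⟨0, 0, 0, 0, 0⟩, ⟨0, 0, 0, 0, 0⟩, false, 0, ⟨0, 3, 0, 0, 0⟩, ⟨0, 1, 0, 0⟩, ⟨0, 3, 0, 0, 0⟩, ⟨0, 1, 0, 0⟩⟩,
   ⟨7, 6, ⟨0, 0, 0, 0, 0⟩, ⟨0, 0, 0, 0, 0⟩, false, 0, ⟨0, 3, 0, 0, 0⟩, ⟨0, 1, 0, 0⟩, ⟨0, 3, 0, 0, 0⟩, ⟨0, 1, 0, 0⟩⟩,
   ⟨7, 7, ⟨6, 0, 0, 0, 0⟩, ⟨0, 2, 0, 1, 1⟩, false, 0, ⟨0, 0, 0, 3, 3⟩, ⟨0, 1, 0, 0⟩, ⟨0, 0, 0, 0, 0⟩, ⟨0, 0, 0, 0⟩⟩,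
   ⟨8, 5, ⟨3, 0, 2, 0, 1⟩, ⟨0, 2, 0, 2, 0⟩, false, 0, ⟨0, 8, 2, 1, 0⟩, ⟨0, 0, 1, 0⟩, ⟨0, 0, 0, 0, 0⟩, ⟨0, 0, 0, 0⟩⟩,
   ⟨8, 6, ⟨9, 0, 1, 0, 0⟩, ⟨0, 4, 0, 2, 1⟩, false, 0, ⟨0, 8, 1, 1, 8⟩, ⟨1, 0, 0, 0⟩, ⟨0, 0, 0, 0, 0⟩, ⟨0, 0, 0, 0⟩⟩],
  [⟨2, 3, ⟨0, 2, 1, 2, 1⟩, ⟨5, 0, 0, 0, 0⟩, false, 0, ⟨0, 1, 6, 8, 2⟩, ⟨0, 2, 0, 0⟩, ⟨0, 0, 0, 0, 0⟩, ⟨0, 0, 0, 0⟩⟩,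
   ⟨2, 4, ⟨0, 0, 1, 1, 0⟩, ⟨2, 0, 0, 0, 0⟩, false, 0, ⟨8, 6, 5, 5, 3⟩, ⟨1, 0, 1, 0⟩, ⟨0, 0, 0, 0, 0⟩, ⟨0, 0, 0, 0⟩⟩,
   ⟨2, 5, ⟨0, 0, 1, 1, 0⟩, ⟨2, 0, 0, 0, 0⟩, false, 0, ⟨0, 3, 0, 0, 0⟩, ⟨0, 1, 0, 0⟩, ⟨0, 0, 0, 0, 0⟩, ⟨0, 0, 0, 0⟩⟩,
   ⟨2, 6, ⟨0, 1, 0, 2, 0⟩, ⟨0, 0, 0, 0, 1⟩, false, 0, ⟨0, 0, 0, 6, 3⟩, ⟨2, 0, 0, 1⟩, ⟨0, 0, 0, 0, 0⟩, ⟨0, 0, 0, 0⟩⟩,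
   ⟨3, 2, ⟨0, 4, 0, 1, 2⟩, ⟨5, 0, 0, 0, 0⟩, false, 0, ⟨0, 1, 0, 2, 8⟩, ⟨0, 1, 0, 0⟩, ⟨0, 0, 0, 0, 0⟩, ⟨0, 0, 0, 0⟩⟩,
   ⟨3, 3, ⟨0, 0, 0, 0, 0⟩, ⟨0, 0, 0, 0, 0⟩, false, 0, ⟨6, 0, 3, 0, 0⟩, ⟨1, 0, 2, 2⟩, ⟨6, 0, 3, 0, 0⟩, ⟨1, 0, 2, 2⟩⟩,
   ⟨3, 4, ⟨0, 0, 0, 0, 0⟩, ⟨0, 0, 0, 0, 0⟩, false, 0, ⟨6, 0, 3, 0, 0⟩, ⟨1, 0, 2, 2⟩, ⟨6, 0, 3, 0, 0⟩, ⟨1, 0, 2, 2⟩⟩,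
   ⟨3, 5, ⟨0, 0, 0, 0, 0⟩, ⟨0, 0, 0, 0, 0⟩, false, 0, ⟨6, 0, 3, 0, 0⟩, ⟨1, 0, 2, 2⟩, ⟨6, 0, 3, 0, 0⟩, ⟨1, 0, 2, 2⟩⟩,
   ⟨3, 6, ⟨0, 0, 0, 0, 0⟩, ⟨0, 0, 0, 0, 0⟩, false, 0, ⟨6, 0, 3, 0, 0⟩, ⟨1, 0, 2, 2⟩, ⟨6, 0, 3, 0, 0⟩, ⟨1, 0, 2, 2⟩⟩,
   ⟨3, 7, ⟨2, 1, 0, 1, 0⟩, ⟨0, 0, 1, 0, 1⟩, false, 0, ⟨8, 1, 5, 1, 5⟩, ⟨1, 0, 0, 2⟩, ⟨0, 3, 0, 0, 0⟩, ⟨0, 1, 0, 0⟩⟩,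
   ⟨4, 2, ⟨0, 5, 0, 0, 3⟩, ⟨4, 0, 0, 1, 0⟩, false, 0, ⟨8, 5, 3, 8, 0⟩, ⟨1, 0, 2, 0⟩, ⟨0, 0, 0, 3, 6⟩, ⟨0, 1, 0, 0⟩⟩,
   ⟨4, 3, ⟨0, 0, 0, 0, 0⟩, ⟨0, 0, 0, 0, 0⟩, false, 0, ⟨6, 0, 3, 0, 0⟩, ⟨1, 0, 2, 2⟩, ⟨6, 0, 3, 0, 0⟩, ⟨1, 0, 2, 2⟩⟩,
   ⟨4, 4, ⟨0, 0, 0, 0, 0⟩, ⟨0, 0, 0, 0, 0⟩, false, 0, ⟨6, 0, 3, 0, 0⟩, ⟨1, 0, 2, 2⟩, ⟨6, 0, 3, 0, 0⟩, ⟨1, 0, 2, 2⟩⟩,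
   ⟨4, 5, ⟨0, 0, 0, 0, 0⟩, ⟨0, 0, 0, 0, 0⟩, false, 0, ⟨6, 0, 3, 0, 0⟩, ⟨1, 0, 2, 2⟩, ⟨6, 0, 3, 0, 0⟩, ⟨1, 0, 2, 2⟩⟩,
   ⟨4, 6, ⟨0, 0, 0, 0, 0⟩, ⟨0, 0, 0, 0, 0⟩, false, 0, ⟨6, 0, 3, 0, 0⟩, ⟨1, 0, 2, 2⟩, ⟨6, 0, 3, 0, 0⟩, ⟨1, 0, 2, 2⟩⟩,
   ⟨4, 7, ⟨0, 0, 0, 0, 0⟩, ⟨0, 0, 0, 0, 0⟩, false, 0, ⟨6, 0, 3, 0, 0⟩, ⟨1, 0, 2, 2⟩, ⟨6, 0, 3, 0, 0⟩, ⟨1, 0, 2, 2⟩⟩,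
   ⟨4, 8, ⟨14, 1, 0, 2, 0⟩, ⟨0, 0, 5, 0, 4⟩, false, 0, ⟨0, 0, 0, 0, 3⟩, ⟨2, 1, 0, 0⟩, ⟨0, 0, 0, 0, 3⟩, ⟨2, 1, 0, 0⟩⟩,
   ⟨5, 3, ⟨0, 0, 0, 0, 0⟩, ⟨0, 0, 0, 0, 0⟩, false, 0, ⟨6, 0, 3, 0, 0⟩, ⟨1, 0, 2, 2⟩, ⟨6, 0, 3, 0, 0⟩, ⟨1, 0, 2, 2⟩⟩,
   ⟨5, 4, ⟨0, 0, 0, 0, 0⟩, ⟨0, 0, 0, 0, 0⟩, false, 0, ⟨6, 0, 3, 0, 0⟩, ⟨1, 0, 2, 2⟩, ⟨6, 0, 3, 0, 0⟩, ⟨1, 0, 2, 2⟩⟩,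
   ⟨5, 5, ⟨0, 0, 0, 0, 0⟩, ⟨0, 0, 0, 0, 0⟩, false, 0, ⟨6, 0, 3, 0, 0⟩, ⟨1, 0, 2, 2⟩, ⟨6, 0, 3, 0, 0⟩, ⟨1, 0, 2, 2⟩⟩,
   ⟨5, 6, ⟨0, 0, 0, 0, 0⟩, ⟨0, 0, 0, 0, 0⟩, false, 0, ⟨6, 0, 3, 0, 0⟩, ⟨1, 0, 2, 2⟩, ⟨6, 0, 3, 0, 0⟩, ⟨1, 0, 2, 2⟩⟩,
   ⟨5, 7, ⟨0, 0, 0, 0, 0⟩, ⟨0, 0, 0, 0, 0⟩, false, 0, ⟨6, 0, 3, 0, 0⟩, ⟨1, 0, 2, 2⟩, ⟨6, 0, 3, 0, 0⟩, ⟨1, 0, 2, 2⟩⟩,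
   ⟨5, 8, ⟨4, 0, 0, 0, 0⟩, ⟨0, 0, 1, 0, 1⟩, false, 0, ⟨0, 3, 0, 0, 0⟩, ⟨0, 1, 0, 0⟩, ⟨1, 6, 2, 6, 8⟩, ⟨2, 0, 2, 0⟩⟩,
   ⟨6, 3, ⟨0, 7, 1, 0, 5⟩, ⟨5, 0, 0, 3, 0⟩, false, 0, ⟨0, 0, 3, 3, 0⟩, ⟨0, 2, 0, 0⟩, ⟨0, 0, 0, 0, 0⟩, ⟨0, 0, 0, 0⟩⟩,
   ⟨6, 4, ⟨0, 0, 0, 0, 0⟩, ⟨0, 0, 0, 0, 0⟩, false, 0, ⟨6, 0, 3, 0, 0⟩, ⟨1, 0, 2, 2⟩, ⟨6, 0, 3, 0, 0⟩, ⟨1, 0, 2, 2⟩⟩,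
   ⟨6, 5, ⟨0, 0, 0, 0, 0⟩, ⟨0, 0, 0, 0, 0⟩, false, 0, ⟨6, 0, 3, 0, 0⟩, ⟨1, 0, 2, 2⟩, ⟨6, 0, 3, 0, 0⟩, ⟨1, 0, 2, 2⟩⟩,
   ⟨6, 6, ⟨0, 0, 0, 0, 0⟩, ⟨0, 0, 0, 0, 0⟩, false, 0, ⟨6, 0, 3, 0, 0⟩, ⟨1, 0, 2, 2⟩, ⟨6, 0, 3, 0, 0⟩, ⟨1, 0, 2, 2⟩⟩,
   ⟨6, 7, ⟨0, 0, 0, 0, 0⟩, ⟨0, 0, 0, 0, 0⟩, false, 0, ⟨6, 0, 3, 0, 0⟩, ⟨1, 0, 2, 2⟩, ⟨6, 0, 3, 0, 0⟩, ⟨1, 0, 2, 2⟩⟩,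
   ⟨6, 8, ⟨10, 0, 0, 0, 0⟩, ⟨0, 2, 1, 1, 2⟩, false, 0, ⟨0, 1, 6, 2, 8⟩, ⟨0, 2, 0, 0⟩, ⟨0, 0, 0, 0, 0⟩, ⟨0, 0, 0, 0⟩⟩,
   ⟨7, 4, ⟨0, 0, 0, 0, 0⟩, ⟨0, 0, 0, 0, 0⟩, false, 0, ⟨6, 0, 3, 0, 0⟩, ⟨1, 0, 2, 2⟩, ⟨6, 0, 3, 0, 0⟩, ⟨1, 0, 2, 2⟩⟩,
   ⟨7, 5, ⟨0, 0, 0, 0, 0⟩, ⟨0, 0, 0, 0, 0⟩, false, 0, ⟨6, 0, 3, 0, 0⟩, ⟨1, 0, 2, 2⟩, ⟨6, 0, 3, 0, 0⟩, ⟨1, 0, 2, 2⟩⟩,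
   ⟨7, 6, ⟨0, 0, 0, 0, 0⟩, ⟨0, 0, 0, 0, 0⟩, false, 0, ⟨6, 0, 3, 0, 0⟩, ⟨1, 0, 2, 2⟩, ⟨6, 0, 3, 0, 0⟩, ⟨1, 0, 2, 2⟩⟩,
   ⟨7, 7, ⟨6, 0, 0, 0, 0⟩, ⟨0, 2, 0, 1, 1⟩, false, 0, ⟨0, 8, 3, 7, 1⟩, ⟨2, 0, 2, 0⟩, ⟨0, 0, 0, 0, 0⟩, ⟨0, 0, 0, 0⟩⟩,
   ⟨8, 5, ⟨0, 0, 0, 0, 0⟩, ⟨0, 0, 0, 0, 0⟩, false, 0, ⟨6, 0, 3, 0, 0⟩, ⟨1, 0, 2, 2⟩, ⟨6, 0, 3, 0, 0⟩, ⟨1, 0, 2, 2⟩⟩,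
   ⟨8, 6, ⟨6, 0, 0, 0, 0⟩, ⟨0, 2, 0, 1, 1⟩, false, 0, ⟨6, 1, 0, 8, 2⟩, ⟨1, 0, 0, 1⟩, ⟨0, 0, 0, 0, 0⟩, ⟨0, 0, 0, 0⟩⟩,
   ⟨9, 5, ⟨6, 2, 3, 0, 4⟩, ⟨0, 0, 0, 6, 0⟩, false, 0, ⟨0, 8, 2, 0, 0⟩, ⟨1, 0, 0, 0⟩, ⟨0, 0, 0, 0, 0⟩, ⟨0, 0, 0, 0⟩⟩],
  [⟨1, 4, ⟨0, 6, 0, 4, 1⟩, ⟨5, 0, 1, 0, 0⟩, false, 0, ⟨0, 0, 0, 3, 0⟩, ⟨0, 0, 0, 1⟩, ⟨0, 0, 0, 0, 0⟩, ⟨0, 0, 0, 0⟩⟩,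
   ⟨2, 3, ⟨0, 5, 0, 2, 2⟩, ⟨5, 0, 1, 0, 0⟩, false, 0, ⟨0, 1, 3, 8, 8⟩, ⟨0, 2, 0, 0⟩, ⟨0, 0, 0, 0, 0⟩, ⟨0, 0, 0, 0⟩⟩,
   ⟨2, 4, ⟨0, 0, 0, 0, 0⟩, ⟨0, 0, 0, 0, 0⟩, false, 0, ⟨6, 0, 3, 0, 0⟩, ⟨1, 0, 2, 2⟩, ⟨6, 0, 3, 0, 0⟩, ⟨1, 0, 2, 2⟩⟩,
   ⟨2, 5, ⟨2, 1, 0, 1, 0⟩, ⟨0, 0, 1, 0, 1⟩, false, 0, ⟨8, 1, 5, 1, 5⟩, ⟨1, 0, 0, 2⟩, ⟨8, 1, 5, 1, 5⟩, ⟨1, 0, 0, 2⟩⟩,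
   ⟨3, 2, ⟨0, 7, 0, 2, 3⟩, ⟨7, 0, 1, 0, 0⟩, false, 0, ⟨0, 0, 1, 1, 8⟩, ⟨1, 0, 0, 0⟩, ⟨0, 0, 0, 0, 0⟩, ⟨0, 0, 0, 0⟩⟩,
   ⟨3, 3, ⟨0, 0, 0, 0, 0⟩, ⟨0, 0, 0, 0, 0⟩, false, 0, ⟨6, 0, 3, 0, 0⟩, ⟨1, 0, 2, 2⟩, ⟨6, 0, 3, 0, 0⟩, ⟨1, 0, 2, 2⟩⟩,
   ⟨3, 4, ⟨0, 0, 0, 0, 0⟩, ⟨0, 0, 0, 0, 0⟩, false, 0, ⟨6, 0, 3, 0, 0⟩, ⟨1, 0, 2, 2⟩, ⟨6, 0, 3, 0, 0⟩, ⟨1, 0, 2, 2⟩⟩,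
   ⟨3, 5, ⟨0, 0, 0, 0, 0⟩, ⟨0, 0, 0, 0, 0⟩, false, 0, ⟨6, 0, 3, 0, 0⟩, ⟨1, 0, 2, 2⟩, ⟨6, 0, 3, 0, 0⟩, ⟨1, 0, 2, 2⟩⟩,
   ⟨3, 6, ⟨10, 1, 0, 2, 0⟩, ⟨0, 0, 4, 0, 3⟩, false, 0, ⟨8, 8, 7, 1, 0⟩, ⟨2, 0, 0, 0⟩, ⟨8, 8, 7, 1, 0⟩, ⟨2, 0, 0, 0⟩⟩,
   ⟨4, 2, ⟨0, 5, 0, 0, 3⟩, ⟨4, 0, 0, 1, 0⟩, false, 0, ⟨0, 0, 0, 3, 6⟩, ⟨0, 1, 0, 0⟩, ⟨8, 5, 3, 8, 0⟩, ⟨1, 0, 2, 0⟩⟩,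
   ⟨4, 3, ⟨0, 0, 0, 0, 0⟩, ⟨0, 0, 0, 0, 0⟩, false, 0, ⟨6, 0, 3, 0, 0⟩, ⟨1, 0, 2, 2⟩, ⟨6, 0, 3, 0, 0⟩, ⟨1, 0, 2, 2⟩⟩,
   ⟨4, 4, ⟨0, 0, 0, 0, 0⟩, ⟨0, 0, 0, 0, 0⟩, false, 0, ⟨6, 0, 3, 0, 0⟩, ⟨1, 0, 2, 2⟩, ⟨6, 0, 3, 0, 0⟩, ⟨1, 0, 2, 2⟩⟩,
   ⟨4, 5, ⟨0, 0, 0, 0, 0⟩, ⟨0, 0, 0, 0, 0⟩, false, 0, ⟨6, 0, 3, 0, 0⟩, ⟨1, 0, 2, 2⟩, ⟨6, 0, 3, 0, 0⟩, ⟨1, 0, 2, 2⟩⟩,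
   ⟨4, 6, ⟨0, 0, 0, 0, 0⟩, ⟨0, 0, 0, 0, 0⟩, false, 0, ⟨6, 0, 3, 0, 0⟩, ⟨1, 0, 2, 2⟩, ⟨6, 0, 3, 0, 0⟩, ⟨1, 0, 2, 2⟩⟩,
   ⟨5, 3, ⟨0, 0, 0, 0, 0⟩, ⟨0, 0, 0, 0, 0⟩, false, 0, ⟨6, 0, 3, 0, 0⟩, ⟨1, 0, 2, 2⟩, ⟨6, 0, 3, 0, 0⟩, ⟨1, 0, 2, 2⟩⟩,
   ⟨5, 4, ⟨0, 0, 0, 0, 0⟩, ⟨0, 0, 0, 0, 0⟩, false, 0, ⟨6, 0, 3, 0, 0⟩, ⟨1, 0, 2, 2⟩, ⟨6, 0, 3, 0, 0⟩, ⟨1, 0, 2, 2⟩⟩,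
   ⟨5, 5, ⟨0, 0, 0, 0, 0⟩, ⟨0, 0, 0, 0, 0⟩, false, 0, ⟨6, 0, 3, 0, 0⟩, ⟨1, 0, 2, 2⟩, ⟨6, 0, 3, 0, 0⟩, ⟨1, 0, 2, 2⟩⟩,
   ⟨5, 6, ⟨0, 0, 0, 0, 0⟩, ⟨0, 0, 0, 0, 0⟩, false, 0, ⟨6, 0, 3, 0, 0⟩, ⟨1, 0, 2, 2⟩, ⟨6, 0, 3, 0, 0⟩, ⟨1, 0, 2, 2⟩⟩,
   ⟨5, 7, ⟨12, 0, 0, 1, 0⟩, ⟨0, 0, 4, 0, 3⟩, false, 0, ⟨8, 6, 7, 0, 1⟩, ⟨2, 0, 0, 0⟩, ⟨8, 6, 7, 0, 1⟩, ⟨2, 0, 0, 0⟩⟩,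
   ⟨6, 3, ⟨0, 3, 0, 0, 2⟩, ⟨2, 0, 0, 1, 0⟩, false, 0, ⟨1, 3, 3, 8, 8⟩, ⟨1, 0, 2, 0⟩, ⟨0, 3, 0, 0, 0⟩, ⟨0, 1, 0, 0⟩⟩,
   ⟨6, 4, ⟨0, 0, 0, 0, 0⟩, ⟨0, 0, 0, 0, 0⟩, false, 0, ⟨6, 0, 3, 0, 0⟩, ⟨1, 0, 2, 2⟩, ⟨6, 0, 3, 0, 0⟩, ⟨1, 0, 2, 2⟩⟩,
   ⟨6, 5, ⟨0, 0, 0, 0, 0⟩, ⟨0, 0, 0, 0, 0⟩, false, 0, ⟨6, 0, 3, 0, 0⟩, ⟨1, 0, 2, 2⟩, ⟨6, 0, 3, 0, 0⟩, ⟨1, 0, 2, 2⟩⟩,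
   ⟨6, 6, ⟨0, 0, 0, 0, 0⟩, ⟨0, 0, 0, 0, 0⟩, false, 0, ⟨6, 0, 3, 0, 0⟩, ⟨1, 0, 2, 2⟩, ⟨6, 0, 3, 0, 0⟩, ⟨1, 0, 2, 2⟩⟩,
   ⟨6, 7, ⟨4, 0, 0, 0, 0⟩, ⟨0, 0, 1, 0, 1⟩, false, 0, ⟨0, 3, 0, 0, 0⟩, ⟨0, 1, 0, 0⟩, ⟨1, 6, 2, 6, 8⟩, ⟨2, 0, 2, 0⟩⟩,
   ⟨7, 4, ⟨0, 0, 0, 0, 0⟩, ⟨0, 0, 0, 0, 0⟩, false, 0, ⟨6, 0, 3, 0, 0⟩, ⟨1, 0, 2, 2⟩, ⟨6, 0, 3, 0, 0⟩, ⟨1, 0, 2, 2⟩⟩,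
   ⟨7, 5, ⟨0, 0, 0, 0, 0⟩, ⟨0, 0, 0, 0, 0⟩, false, 0, ⟨6, 0, 3, 0, 0⟩, ⟨1, 0, 2, 2⟩, ⟨6, 0, 3, 0, 0⟩, ⟨1, 0, 2, 2⟩⟩,
   ⟨7, 6, ⟨0, 0, 0, 0, 0⟩, ⟨0, 0, 0, 0, 0⟩, false, 0, ⟨6, 0, 3, 0, 0⟩, ⟨1, 0, 2, 2⟩, ⟨6, 0, 3, 0, 0⟩, ⟨1, 0, 2, 2⟩⟩,
   ⟨7, 7, ⟨18, 0, 0, 0, 0⟩, ⟨0, 2, 3, 2, 3⟩, false, 0, ⟨0, 1, 6, 1, 0⟩, ⟨0, 2, 0, 0⟩, ⟨0, 0, 0, 0, 0⟩, ⟨0, 0, 0, 0⟩⟩,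
   ⟨8, 4, ⟨0, 9, 1, 0, 6⟩, ⟨5, 0, 0, 4, 0⟩, false, 0, ⟨0, 0, 1, 0, 4⟩, ⟨2, 0, 0, 0⟩, ⟨0, 0, 0, 0, 0⟩, ⟨0, 0, 0, 0⟩⟩,
   ⟨8, 5, ⟨0, 0, 0, 0, 0⟩, ⟨0, 0, 0, 0, 0⟩, false, 0, ⟨6, 0, 3, 0, 0⟩, ⟨1, 0, 2, 2⟩, ⟨6, 0, 3, 0, 0⟩, ⟨1, 0, 2, 2⟩⟩,
   ⟨8, 6, ⟨14, 0, 0, 0, 0⟩, ⟨0, 2, 2, 2, 2⟩, false, 0, ⟨0, 0, 3, 0, 0⟩, ⟨0, 0, 0, 2⟩, ⟨0, 0, 0, 0, 0⟩, ⟨0, 0, 0, 0⟩⟩,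
   ⟨9, 5, ⟨14, 0, 0, 0, 0⟩, ⟨0, 0, 2, 3, 1⟩, false, 0, ⟨0, 0, 3, 8, 0⟩, ⟨0, 1, 0, 0⟩, ⟨0, 0, 0, 0, 0⟩, ⟨0, 0, 0, 0⟩⟩],
  [⟨2, 4, ⟨10, 4, 0, 3, 0⟩, ⟨0, 0, 6, 0, 2⟩, false, 0, ⟨8, 3, 2, 0, 0⟩, ⟨1, 0, 0, 0⟩, ⟨8, 3, 2, 0, 0⟩, ⟨1, 0, 0, 0⟩⟩,
   ⟨3, 3, ⟨0, 3, 0, 1, 1⟩, ⟨0, 0, 2, 0, 0⟩, false, 0, ⟨8, 6, 5, 6, 0⟩, ⟨1, 0, 0, 0⟩, ⟨8, 6, 5, 6, 0⟩, ⟨1, 0, 0, 0⟩⟩,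
   ⟨3, 4, ⟨2, 0, 0, 0, 0⟩, ⟨0, 0, 1, 0, 0⟩, false, 0, ⟨1, 3, 0, 8, 2⟩, ⟨1, 0, 0, 0⟩, ⟨1, 3, 0, 8, 2⟩, ⟨1, 0, 0, 0⟩⟩,
   ⟨4, 2, ⟨0, 8, 0, 0, 4⟩, ⟨4, 0, 2, 0, 0⟩, false, 0, ⟨0, 0, 0, 3, 6⟩, ⟨0, 1, 0, 0⟩, ⟨0, 0, 0, 3, 6⟩, ⟨0, 1, 0, 0⟩⟩,
   ⟨4, 3, ⟨2, 0, 0, 0, 0⟩, ⟨0, 0, 1, 0, 0⟩, false, 0, ⟨1, 3, 0, 8, 2⟩, ⟨1, 0, 0, 0⟩, ⟨1, 3, 0, 8, 2⟩, ⟨1, 0, 0, 0⟩⟩,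
   ⟨4, 4, ⟨2, 0, 0, 0, 0⟩, ⟨0, 0, 1, 0, 0⟩, false, 0, ⟨1, 3, 0, 8, 2⟩, ⟨1, 0, 0, 0⟩, ⟨1, 3, 0, 8, 2⟩, ⟨1, 0, 0, 0⟩⟩,
   ⟨4, 5, ⟨10, 0, 0, 1, 0⟩, ⟨0, 0, 4, 0, 2⟩, false, 0, ⟨8, 3, 2, 0, 0⟩, ⟨1, 0, 0, 0⟩, ⟨8, 3, 2, 0, 0⟩, ⟨1, 0, 0, 0⟩⟩,
   ⟨5, 3, ⟨2, 0, 0, 0, 0⟩, ⟨0, 0, 1, 0, 0⟩, false, 0, ⟨1, 3, 0, 8, 2⟩, ⟨1, 0, 0, 0⟩, ⟨1, 3, 0, 8, 2⟩, ⟨1, 0, 0, 0⟩⟩,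
   ⟨5, 4, ⟨2, 0, 0, 0, 0⟩, ⟨0, 0, 1, 0, 0⟩, false, 0, ⟨1, 3, 0, 8, 2⟩, ⟨1, 0, 0, 0⟩, ⟨1, 3, 0, 8, 2⟩, ⟨1, 0, 0, 0⟩⟩,
   ⟨5, 5, ⟨2, 0, 0, 0, 0⟩, ⟨0, 0, 1, 0, 0⟩, false, 0, ⟨1, 3, 0, 8, 2⟩, ⟨1, 0, 0, 0⟩, ⟨1, 3, 0, 8, 2⟩, ⟨1, 0, 0, 0⟩⟩,
   ⟨6, 3, ⟨0, 3, 0, 0, 2⟩, ⟨0, 0, 1, 1, 0⟩, false, 0, ⟨0, 0, 1, 1, 7⟩, ⟨0, 1, 0, 0⟩, ⟨0, 0, 1, 1, 7⟩, ⟨0, 1, 0, 0⟩⟩,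
   ⟨6, 4, ⟨2, 0, 0, 0, 0⟩, ⟨0, 0, 1, 0, 0⟩, false, 0, ⟨1, 3, 0, 8, 2⟩, ⟨1, 0, 0, 0⟩, ⟨1, 3, 0, 8, 2⟩, ⟨1, 0, 0, 0⟩⟩,
   ⟨6, 5, ⟨2, 0, 0, 0, 0⟩, ⟨0, 0, 1, 0, 0⟩, false, 0, ⟨1, 3, 0, 8, 2⟩, ⟨1, 0, 0, 0⟩, ⟨1, 3, 0, 8, 2⟩, ⟨1, 0, 0, 0⟩⟩,
   ⟨6, 6, ⟨22, 0, 0, 0, 0⟩, ⟨0, 0, 7, 0, 4⟩, false, 0, ⟨8, 3, 2, 0, 0⟩, ⟨1, 0, 0, 0⟩, ⟨8, 3, 2, 0, 0⟩, ⟨1, 0, 0, 0⟩⟩,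
   ⟨7, 4, ⟨2, 0, 0, 0, 0⟩, ⟨0, 0, 1, 0, 0⟩, false, 0, ⟨1, 3, 0, 8, 2⟩, ⟨1, 0, 0, 0⟩, ⟨1, 3, 0, 8, 2⟩, ⟨1, 0, 0, 0⟩⟩,
   ⟨7, 5, ⟨10, 0, 0, 0, 0⟩, ⟨0, 0, 3, 1, 1⟩, false, 0, ⟨8, 3, 5, 6, 0⟩, ⟨1, 0, 0, 0⟩, ⟨8, 3, 5, 6, 0⟩, ⟨1, 0, 0, 0⟩⟩,
   ⟨8, 4, ⟨8, 5, 0, 0, 2⟩, ⟨0, 0, 3, 3, 0⟩, false, 0, ⟨0, 0, 0, 0, 6⟩, ⟨1, 1, 0, 0⟩, ⟨0, 0, 0, 0, 6⟩, ⟨1, 1, 0, 0⟩⟩]]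

def tb3 : List (List En) := [
  [],
  [],
  [],
  [⟨3, 0, ⟨0, 10, 7, 0, 13⟩, ⟨15, 0, 0, 2, 0⟩, true, 7, ⟨0, 0, 0, 0, 0⟩, ⟨0, 0, 0, 0⟩, ⟨0, 0, 0, 0, 0⟩, ⟨0, 0, 0, 0⟩⟩,
   ⟨3, 1, ⟨0, 0, 3, 2, 0⟩, ⟨3, 2, 0, 0, 0⟩, false, 0, ⟨0, 0, 0, 0, 8⟩, ⟨1, 1, 0, 0⟩, ⟨0, 0, 0, 0, 0⟩, ⟨0, 0, 0, 0⟩⟩,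
   ⟨3, 2, ⟨0, 0, 3, 2, 0⟩, ⟨3, 2, 0, 0, 0⟩, false, 0, ⟨0, 0, 0, 0, 8⟩, ⟨1, 1, 0, 0⟩, ⟨0, 0, 0, 0, 0⟩, ⟨0, 0, 0, 0⟩⟩,
   ⟨3, 3, ⟨0, 0, 3, 2, 0⟩, ⟨3, 2, 0, 0, 0⟩, false, 0, ⟨0, 0, 0, 0, 8⟩, ⟨1, 1, 0, 0⟩, ⟨0, 0, 0, 0, 0⟩, ⟨0, 0, 0, 0⟩⟩,
   ⟨3, 4, ⟨0, 0, 3, 2, 0⟩, ⟨3, 2, 0, 0, 0⟩, false, 0, ⟨0, 0, 0, 0, 8⟩, ⟨1, 1, 0, 0⟩, ⟨0, 0, 0, 0, 0⟩, ⟨0, 0, 0, 0⟩⟩,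
   ⟨3, 5, ⟨0, 0, 3, 2, 0⟩, ⟨3, 2, 0, 0, 0⟩, false, 0, ⟨0, 0, 0, 0, 8⟩, ⟨1, 1, 0, 0⟩, ⟨0, 0, 0, 0, 0⟩, ⟨0, 0, 0, 0⟩⟩,
   ⟨3, 6, ⟨0, 0, 3, 2, 0⟩, ⟨3, 2, 0, 0, 0⟩, false, 0, ⟨0, 0, 0, 0, 8⟩, ⟨1, 1, 0, 0⟩, ⟨0, 0, 0, 0, 0⟩, ⟨0, 0, 0, 0⟩⟩,
   ⟨3, 7, ⟨0, 0, 3, 2, 0⟩, ⟨3, 2, 0, 0, 0⟩, false, 0, ⟨0, 0, 0, 0, 8⟩, ⟨1, 1, 0, 0⟩, ⟨0, 0, 0, 0, 0⟩, ⟨0, 0, 0, 0⟩⟩,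
   ⟨3, 8, ⟨0, 0, 3, 2, 0⟩, ⟨3, 2, 0, 0, 0⟩, false, 0, ⟨0, 0, 0, 0, 8⟩, ⟨1, 1, 0, 0⟩, ⟨0, 0, 0, 0, 0⟩, ⟨0, 0, 0, 0⟩⟩,
   ⟨3, 9, ⟨39, 0, 0, 4, 0⟩, ⟨0, 8, 5, 0, 10⟩, true, 9, ⟨0, 0, 0, 0, 0⟩, ⟨0, 0, 0, 0⟩, ⟨0, 0, 0, 0, 0⟩, ⟨0, 0, 0, 0⟩⟩,
   ⟨4, 1, ⟨1, 0, 3, 0, 2⟩, ⟨0, 2, 0, 2, 0⟩, false, 0, ⟨0, 0, 0, 0, 3⟩, ⟨0, 0, 1, 0⟩, ⟨0, 0, 0, 0, 0⟩, ⟨0, 0, 0, 0⟩⟩,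
   ⟨4, 2, ⟨0, 0, 1, 0, 0⟩, ⟨0, 1, 0, 0, 0⟩, false, 0, ⟨0, 0, 0, 3, 0⟩, ⟨2, 2, 0, 2⟩, ⟨0, 0, 0, 0, 0⟩, ⟨0, 0, 0, 0⟩⟩,
   ⟨4, 3, ⟨0, 0, 1, 0, 0⟩, ⟨0, 1, 0, 0, 0⟩, false, 0, ⟨0, 0, 0, 3, 0⟩, ⟨2, 2, 0, 2⟩, ⟨0, 0, 0, 0, 0⟩, ⟨0, 0, 0, 0⟩⟩,
   ⟨4, 4, ⟨0, 0, 1, 0, 0⟩, ⟨0, 1, 0, 0, 0⟩, false, 0, ⟨0, 0, 0, 3, 0⟩, ⟨2, 2, 0, 2⟩, ⟨0, 0, 0, 0, 0⟩, ⟨0, 0, 0, 0⟩⟩,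
   ⟨4, 5, ⟨0, 0, 1, 0, 0⟩, ⟨0, 1, 0, 0, 0⟩, false, 0, ⟨0, 0, 0, 3, 0⟩, ⟨2, 2, 0, 2⟩, ⟨0, 0, 0, 0, 0⟩, ⟨0, 0, 0, 0⟩⟩,
   ⟨4, 6, ⟨0, 0, 1, 0, 0⟩, ⟨0, 1, 0, 0, 0⟩, false, 0, ⟨0, 0, 0, 3, 0⟩, ⟨2, 2, 0, 2⟩, ⟨0, 0, 0, 0, 0⟩, ⟨0, 0, 0, 0⟩⟩,
   ⟨4, 7, ⟨0, 0, 1, 0, 0⟩, ⟨0, 1, 0, 0, 0⟩, false, 0, ⟨0, 0, 0, 3, 0⟩, ⟨2, 2, 0, 2⟩, ⟨0, 0, 0, 0, 0⟩, ⟨0, 0, 0, 0⟩⟩,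
   ⟨4, 8, ⟨13, 0, 1, 0, 0⟩, ⟨0, 6, 0, 2, 2⟩, false, 0, ⟨0, 0, 0, 0, 3⟩, ⟨1, 2, 0, 0⟩, ⟨0, 0, 0, 0, 0⟩, ⟨0, 0, 0, 0⟩⟩,
   ⟨5, 2, ⟨1, 0, 3, 0, 2⟩, ⟨0, 2, 0, 2, 0⟩, false, 0, ⟨0, 0, 0, 0, 3⟩, ⟨0, 0, 1, 0⟩, ⟨0, 0, 0, 0, 0⟩, ⟨0, 0, 0, 0⟩⟩,
   ⟨5, 3, ⟨0, 0, 1, 0, 0⟩, ⟨0, 1, 0, 0, 0⟩, false, 0, ⟨0, 0, 0, 3, 0⟩, ⟨2, 2, 0, 2⟩, ⟨0, 0, 0, 0, 0⟩, ⟨0, 0, 0, 0⟩⟩,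
   ⟨5, 4, ⟨0, 0, 1, 0, 0⟩, ⟨0, 1, 0, 0, 0⟩, false, 0, ⟨0, 0, 0, 3, 0⟩, ⟨2, 2, 0, 2⟩, ⟨0, 0, 0, 0, 0⟩, ⟨0, 0, 0, 0⟩⟩,
   ⟨5, 5, ⟨0, 0, 1, 0, 0⟩, ⟨0, 1, 0, 0, 0⟩, false, 0, ⟨0, 0, 0, 3, 0⟩, ⟨2, 2, 0, 2⟩, ⟨0, 0, 0, 0, 0⟩, ⟨0, 0, 0, 0⟩⟩,
   ⟨5, 6, ⟨0, 0, 1, 0, 0⟩, ⟨0, 1, 0, 0, 0⟩, false, 0, ⟨0, 0, 0, 3, 0⟩, ⟨2, 2, 0, 2⟩, ⟨0, 0, 0, 0, 0⟩, ⟨0, 0, 0, 0⟩⟩,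
   ⟨5, 7, ⟨13, 0, 1, 0, 0⟩, ⟨0, 6, 0, 2, 2⟩, false, 0, ⟨0, 0, 0, 0, 3⟩, ⟨1, 2, 0, 0⟩, ⟨0, 0, 0, 0, 0⟩, ⟨0, 0, 0, 0⟩⟩,
   ⟨6, 3, ⟨4, 0, 4, 0, 2⟩, ⟨0, 4, 0, 3, 0⟩, true, 8, ⟨0, 0, 0, 0, 0⟩, ⟨0, 0, 0, 0⟩, ⟨0, 0, 0, 0, 0⟩, ⟨0, 0, 0, 0⟩⟩,
   ⟨6, 4, ⟨3, 0, 2, 0, 0⟩, ⟨0, 3, 0, 1, 0⟩, false, 0, ⟨0, 0, 8, 8, 3⟩, ⟨0, 1, 2, 0⟩, ⟨0, 0, 0, 0, 0⟩, ⟨0, 0, 0, 0⟩⟩,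
   ⟨6, 5, ⟨3, 0, 2, 0, 0⟩, ⟨0, 3, 0, 1, 0⟩, false, 0, ⟨0, 0, 8, 8, 3⟩, ⟨0, 1, 2, 0⟩, ⟨0, 0, 0, 0, 0⟩, ⟨0, 0, 0, 0⟩⟩,
   ⟨6, 6, ⟨16, 0, 2, 0, 0⟩, ⟨0, 8, 0, 3, 2⟩, true, 2, ⟨0, 0, 0, 0, 0⟩, ⟨0, 0, 0, 0⟩, ⟨0, 0, 0, 0, 0⟩, ⟨0, 0, 0, 0⟩⟩],
  [⟨2, 1, ⟨0, 1, 2, 4, 2⟩, ⟨7, 0, 0, 0, 0⟩, false, 0, ⟨0, 0, 0, 0, 3⟩, ⟨0, 0, 1, 0⟩, ⟨0, 0, 0, 0, 0⟩, ⟨0, 0, 0, 0⟩⟩,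
   ⟨2, 2, ⟨0, 0, 2, 2, 0⟩, ⟨3, 1, 0, 0, 0⟩, false, 0, ⟨0, 8, 4, 3, 8⟩, ⟨1, 0, 0, 0⟩, ⟨0, 0, 0, 0, 0⟩, ⟨0, 0, 0, 0⟩⟩,
   ⟨2, 3, ⟨0, 0, 2, 2, 0⟩, ⟨3, 1, 0, 0, 0⟩, false, 0, ⟨0, 8, 4, 3, 8⟩, ⟨1, 0, 0, 0⟩, ⟨0, 0, 0, 0, 0⟩, ⟨0, 0, 0, 0⟩⟩,
   ⟨2, 4, ⟨0, 0, 2, 2, 0⟩, ⟨3, 1, 0, 0, 0⟩, false, 0, ⟨0, 8, 4, 3, 8⟩, ⟨1, 0, 0, 0⟩, ⟨0, 0, 0, 0, 0⟩, ⟨0, 0, 0, 0⟩⟩,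
   ⟨2, 5, ⟨0, 0, 2, 2, 0⟩, ⟨3, 1, 0, 0, 0⟩, false, 0, ⟨0, 8, 4, 3, 8⟩, ⟨1, 0, 0, 0⟩, ⟨0, 0, 0, 0, 0⟩, ⟨0, 0, 0, 0⟩⟩,
   ⟨2, 6, ⟨0, 0, 2, 2, 0⟩, ⟨3, 1, 0, 0, 0⟩, false, 0, ⟨0, 8, 4, 3, 8⟩, ⟨1, 0, 0, 0⟩, ⟨0, 0, 0, 0, 0⟩, ⟨0, 0, 0, 0⟩⟩,
   ⟨2, 7, ⟨18, 0, 0, 5, 0⟩, ⟨0, 3, 5, 0, 5⟩, false, 0, ⟨0, 0, 0, 6, 0⟩, ⟨1, 1, 0, 0⟩, ⟨0, 0, 0, 0, 0⟩, ⟨0, 0, 0, 0⟩⟩,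
   ⟨3, 0, ⟨0, 7, 0, 0, 7⟩, ⟨7, 0, 0, 0, 0⟩, false, 0, ⟨0, 0, 6, 0, 0⟩, ⟨1, 0, 0, 0⟩, ⟨0, 0, 0, 0, 0⟩, ⟨0, 0, 0, 0⟩⟩,
   ⟨3, 1, ⟨0, 0, 0, 0, 0⟩, ⟨0, 0, 0, 0, 0⟩, false, 0, ⟨6, 0, 3, 0, 0⟩, ⟨1, 0, 2, 2⟩, ⟨6, 0, 3, 0, 0⟩, ⟨1, 0, 2, 2⟩⟩,
   ⟨3, 2, ⟨0, 0, 0, 0, 0⟩, ⟨0, 0, 0, 0, 0⟩, false, 0, ⟨6, 0, 3, 0, 0⟩, ⟨1, 0, 2, 2⟩, ⟨6, 0, 3, 0, 0⟩, ⟨1, 0, 2, 2⟩⟩,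
   ⟨3, 3, ⟨0, 0, 0, 0, 0⟩, ⟨0, 0, 0, 0, 0⟩, false, 0, ⟨6, 0, 3, 0, 0⟩, ⟨1, 0, 2, 2⟩, ⟨6, 0, 3, 0, 0⟩, ⟨1, 0, 2, 2⟩⟩,
   ⟨3, 4, ⟨0, 0, 0, 0, 0⟩, ⟨0, 0, 0, 0, 0⟩, false, 0, ⟨6, 0, 3, 0, 0⟩, ⟨1, 0, 2, 2⟩, ⟨6, 0, 3, 0, 0⟩, ⟨1, 0, 2, 2⟩⟩,
   ⟨3, 5, ⟨0, 0, 0, 0, 0⟩, ⟨0, 0, 0, 0, 0⟩, false, 0, ⟨6, 0, 3, 0, 0⟩, ⟨1, 0, 2, 2⟩, ⟨6, 0, 3, 0, 0⟩, ⟨1, 0, 2, 2⟩⟩,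
   ⟨3, 6, ⟨0, 0, 0, 0, 0⟩, ⟨0, 0, 0, 0, 0⟩, false, 0, ⟨6, 0, 3, 0, 0⟩, ⟨1, 0, 2, 2⟩, ⟨6, 0, 3, 0, 0⟩, ⟨1, 0, 2, 2⟩⟩,
   ⟨3, 7, ⟨0, 0, 0, 0, 0⟩, ⟨0, 0, 0, 0, 0⟩, false, 0, ⟨6, 0, 3, 0, 0⟩, ⟨1, 0, 2, 2⟩, ⟨6, 0, 3, 0, 0⟩, ⟨1, 0, 2, 2⟩⟩,
   ⟨4, 1, ⟨0, 0, 0, 0, 0⟩, ⟨0, 0, 0, 0, 0⟩, false, 0, ⟨6, 0, 3, 0, 0⟩, ⟨1, 0, 2, 2⟩, ⟨6, 0, 3, 0, 0⟩, ⟨1, 0, 2, 2⟩⟩,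
   ⟨4, 2, ⟨0, 0, 0, 0, 0⟩, ⟨0, 0, 0, 0, 0⟩, false, 0, ⟨6, 0, 3, 0, 0⟩, ⟨1, 0, 2, 2⟩, ⟨6, 0, 3, 0, 0⟩, ⟨1, 0, 2, 2⟩⟩,
   ⟨4, 3, ⟨0, 0, 0, 0, 0⟩, ⟨0, 0, 0, 0, 0⟩, false, 0, ⟨6, 0, 3, 0, 0⟩, ⟨1, 0, 2, 2⟩, ⟨6, 0, 3, 0, 0⟩, ⟨1, 0, 2, 2⟩⟩,
   ⟨4, 4, ⟨0, 0, 0, 0, 0⟩, ⟨0, 0, 0, 0, 0⟩, false, 0, ⟨6, 0, 3, 0, 0⟩, ⟨1, 0, 2, 2⟩, ⟨6, 0, 3, 0, 0⟩, ⟨1, 0, 2, 2⟩⟩,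
   ⟨4, 5, ⟨0, 0, 0, 0, 0⟩, ⟨0, 0, 0, 0, 0⟩, false, 0, ⟨6, 0, 3, 0, 0⟩, ⟨1, 0, 2, 2⟩, ⟨6, 0, 3, 0, 0⟩, ⟨1, 0, 2, 2⟩⟩,
   ⟨4, 6, ⟨0, 0, 0, 0, 0⟩, ⟨0, 0, 0, 0, 0⟩, false, 0, ⟨6, 0, 3, 0, 0⟩, ⟨1, 0, 2, 2⟩, ⟨6, 0, 3, 0, 0⟩, ⟨1, 0, 2, 2⟩⟩,
   ⟨4, 7, ⟨0, 0, 0, 0, 0⟩, ⟨0, 0, 0, 0, 0⟩, false, 0, ⟨6, 0, 3, 0, 0⟩, ⟨1, 0, 2, 2⟩, ⟨6, 0, 3, 0, 0⟩, ⟨1, 0, 2, 2⟩⟩,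
   ⟨4, 8, ⟨36, 0, 0, 0, 0⟩, ⟨0, 8, 7, 0, 7⟩, false, 0, ⟨0, 0, 0, 0, 6⟩, ⟨1, 2, 0, 0⟩, ⟨0, 0, 0, 0, 0⟩, ⟨0, 0, 0, 0⟩⟩,
   ⟨5, 1, ⟨0, 6, 3, 0, 9⟩, ⟨3, 0, 0, 6, 0⟩, false, 0, ⟨0, 0, 0, 0, 6⟩, ⟨1, 1, 0, 0⟩, ⟨0, 0, 0, 0, 0⟩, ⟨0, 0, 0, 0⟩⟩,
   ⟨5, 2, ⟨0, 0, 0, 0, 0⟩, ⟨0, 0, 0, 0, 0⟩, false, 0, ⟨6, 0, 3, 0, 0⟩, ⟨1, 0, 2, 2⟩, ⟨6, 0, 3, 0, 0⟩, ⟨1, 0, 2, 2⟩⟩,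
   ⟨5, 3, ⟨0, 0, 0, 0, 0⟩, ⟨0, 0, 0, 0, 0⟩, false, 0, ⟨6, 0, 3, 0, 0⟩, ⟨1, 0, 2, 2⟩, ⟨6, 0, 3, 0, 0⟩, ⟨1, 0, 2, 2⟩⟩,
   ⟨5, 4, ⟨0, 0, 0, 0, 0⟩, ⟨0, 0, 0, 0, 0⟩, false, 0, ⟨6, 0, 3, 0, 0⟩, ⟨1, 0, 2, 2⟩, ⟨6, 0, 3, 0, 0⟩, ⟨1, 0, 2, 2⟩⟩,
   ⟨5, 5, ⟨0, 0, 0, 0, 0⟩, ⟨0, 0, 0, 0, 0⟩, false, 0, ⟨6, 0, 3, 0, 0⟩, ⟨1, 0, 2, 2⟩, ⟨6, 0, 3, 0, 0⟩, ⟨1, 0, 2, 2⟩⟩,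
   ⟨5, 6, ⟨0, 0, 0, 0, 0⟩, ⟨0, 0, 0, 0, 0⟩, false, 0, ⟨6, 0, 3, 0, 0⟩, ⟨1, 0, 2, 2⟩, ⟨6, 0, 3, 0, 0⟩, ⟨1, 0, 2, 2⟩⟩,
   ⟨5, 7, ⟨13, 0, 0, 0, 0⟩, ⟨0, 5, 0, 2, 2⟩, false, 0, ⟨0, 0, 3, 0, 0⟩, ⟨0, 1, 0, 1⟩, ⟨0, 0, 0, 0, 0⟩, ⟨0, 0, 0, 0⟩⟩,
   ⟨6, 2, ⟨1, 0, 2, 0, 2⟩, ⟨0, 1, 0, 2, 0⟩, false, 0, ⟨0, 0, 0, 6, 3⟩, ⟨1, 0, 0, 0⟩, ⟨0, 0, 0, 0, 0⟩, ⟨0, 0, 0, 0⟩⟩,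
   ⟨6, 3, ⟨0, 0, 0, 0, 0⟩, ⟨0, 0, 0, 0, 0⟩, false, 0, ⟨6, 0, 3, 0, 0⟩, ⟨1, 0, 2, 2⟩, ⟨6, 0, 3, 0, 0⟩, ⟨1, 0, 2, 2⟩⟩,
   ⟨6, 4, ⟨0, 0, 0, 0, 0⟩, ⟨0, 0, 0, 0, 0⟩, false, 0, ⟨6, 0, 3, 0, 0⟩, ⟨1, 0, 2, 2⟩, ⟨6, 0, 3, 0, 0⟩, ⟨1, 0, 2, 2⟩⟩,
   ⟨6, 5, ⟨0, 0, 0, 0, 0⟩, ⟨0, 0, 0, 0, 0⟩, false, 0, ⟨6, 0, 3, 0, 0⟩, ⟨1, 0, 2, 2⟩, ⟨6, 0, 3, 0, 0⟩, ⟨1, 0, 2, 2⟩⟩,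
   ⟨6, 6, ⟨13, 0, 0, 0, 0⟩, ⟨0, 5, 0, 2, 2⟩, false, 0, ⟨0, 0, 3, 0, 0⟩, ⟨0, 1, 0, 1⟩, ⟨0, 0, 0, 0, 0⟩, ⟨0, 0, 0, 0⟩⟩,
   ⟨7, 3, ⟨4, 0, 3, 0, 2⟩, ⟨0, 3, 0, 3, 0⟩, false, 0, ⟨0, 0, 0, 6, 3⟩, ⟨1, 0, 0, 0⟩, ⟨0, 0, 0, 0, 0⟩, ⟨0, 0, 0, 0⟩⟩,
   ⟨7, 4, ⟨3, 0, 1, 0, 0⟩, ⟨0, 2, 0, 1, 0⟩, false, 0, ⟨0, 0, 0, 0, 6⟩, ⟨0, 1, 0, 1⟩, ⟨0, 0, 0, 0, 0⟩, ⟨0, 0, 0, 0⟩⟩,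
   ⟨7, 5, ⟨16, 0, 1, 0, 0⟩, ⟨0, 7, 0, 3, 2⟩, false, 0, ⟨0, 0, 0, 0, 6⟩, ⟨1, 1, 0, 0⟩, ⟨0, 0, 0, 0, 0⟩, ⟨0, 0, 0, 0⟩⟩],
  [⟨1, 2, ⟨0, 1, 2, 4, 2⟩, ⟨7, 0, 0, 0, 0⟩, false, 0, ⟨0, 0, 0, 0, 3⟩, ⟨0, 0, 1, 0⟩, ⟨0, 0, 0, 0, 0⟩, ⟨0, 0, 0, 0⟩⟩,
   ⟨1, 3, ⟨0, 0, 2, 2, 0⟩, ⟨3, 1, 0, 0, 0⟩, false, 0, ⟨0, 8, 4, 3, 8⟩, ⟨1, 0, 0, 0⟩, ⟨0, 0, 0, 0, 0⟩, ⟨0, 0, 0, 0⟩⟩,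
   ⟨1, 4, ⟨0, 0, 2, 2, 0⟩, ⟨3, 1, 0, 0, 0⟩, false, 0, ⟨0, 8, 4, 3, 8⟩, ⟨1, 0, 0, 0⟩, ⟨0, 0, 0, 0, 0⟩, ⟨0, 0, 0, 0⟩⟩,
   ⟨1, 5, ⟨18, 0, 0, 5, 0⟩, ⟨0, 3, 5, 0, 5⟩, false, 0, ⟨0, 0, 0, 6, 0⟩, ⟨1, 1, 0, 0⟩, ⟨0, 0, 0, 0, 0⟩, ⟨0, 0, 0, 0⟩⟩,
   ⟨2, 1, ⟨0, 2, 0, 2, 2⟩, ⟨4, 0, 0, 0, 0⟩, false, 0, ⟨0, 0, 6, 0, 3⟩, ⟨1, 0, 0, 0⟩, ⟨0, 0, 0, 0, 0⟩, ⟨0, 0, 0, 0⟩⟩,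
   ⟨2, 2, ⟨0, 0, 0, 0, 0⟩, ⟨0, 0, 0, 0, 0⟩, false, 0, ⟨6, 0, 3, 0, 0⟩, ⟨1, 0, 2, 2⟩, ⟨6, 0, 3, 0, 0⟩, ⟨1, 0, 2, 2⟩⟩,
   ⟨2, 3, ⟨0, 0, 0, 0, 0⟩, ⟨0, 0, 0, 0, 0⟩, false, 0, ⟨6, 0, 3, 0, 0⟩, ⟨1, 0, 2, 2⟩, ⟨6, 0, 3, 0, 0⟩, ⟨1, 0, 2, 2⟩⟩,
   ⟨2, 4, ⟨0, 0, 0, 0, 0⟩, ⟨0, 0, 0, 0, 0⟩, false, 0, ⟨6, 0, 3, 0, 0⟩, ⟨1, 0, 2, 2⟩, ⟨6, 0, 3, 0, 0⟩, ⟨1, 0, 2, 2⟩⟩,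
   ⟨2, 5, ⟨0, 0, 0, 0, 0⟩, ⟨0, 0, 0, 0, 0⟩, false, 0, ⟨6, 0, 3, 0, 0⟩, ⟨1, 0, 2, 2⟩, ⟨6, 0, 3, 0, 0⟩, ⟨1, 0, 2, 2⟩⟩,
   ⟨3, 0, ⟨0, 7, 0, 0, 7⟩, ⟨7, 0, 0, 0, 0⟩, false, 0, ⟨0, 0, 6, 0, 0⟩, ⟨1, 0, 0, 0⟩, ⟨0, 0, 0, 0, 0⟩, ⟨0, 0, 0, 0⟩⟩,
   ⟨3, 1, ⟨0, 0, 0, 0, 0⟩, ⟨0, 0, 0, 0, 0⟩, false, 0, ⟨6, 0, 3, 0, 0⟩, ⟨1, 0, 2, 2⟩, ⟨6, 0, 3, 0, 0⟩, ⟨1, 0, 2, 2⟩⟩,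
   ⟨3, 2, ⟨0, 0, 0, 0, 0⟩, ⟨0, 0, 0, 0, 0⟩, false, 0, ⟨6, 0, 3, 0, 0⟩, ⟨1, 0, 2, 2⟩, ⟨6, 0, 3, 0, 0⟩, ⟨1, 0, 2, 2⟩⟩,
   ⟨3, 3, ⟨0, 0, 0, 0, 0⟩, ⟨0, 0, 0, 0, 0⟩, false, 0, ⟨6, 0, 3, 0, 0⟩, ⟨1, 0, 2, 2⟩, ⟨6, 0, 3, 0, 0⟩, ⟨1, 0, 2, 2⟩⟩,
   ⟨3, 4, ⟨0, 0, 0, 0, 0⟩, ⟨0, 0, 0, 0, 0⟩, false, 0, ⟨6, 0, 3, 0, 0⟩, ⟨1, 0, 2, 2⟩, ⟨6, 0, 3, 0, 0⟩, ⟨1, 0, 2, 2⟩⟩,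
   ⟨3, 5, ⟨0, 0, 0, 0, 0⟩, ⟨0, 0, 0, 0, 0⟩, false, 0, ⟨6, 0, 3, 0, 0⟩, ⟨1, 0, 2, 2⟩, ⟨6, 0, 3, 0, 0⟩, ⟨1, 0, 2, 2⟩⟩,
   ⟨3, 6, ⟨19, 0, 0, 2, 0⟩, ⟨0, 3, 6, 0, 4⟩, false, 0, ⟨0, 0, 3, 0, 0⟩, ⟨1, 0, 0, 0⟩, ⟨0, 0, 0, 0, 0⟩, ⟨0, 0, 0, 0⟩⟩,
   ⟨4, 1, ⟨0, 0, 0, 0, 0⟩, ⟨0, 0, 0, 0, 0⟩, false, 0, ⟨6, 0, 3, 0, 0⟩, ⟨1, 0, 2, 2⟩, ⟨6, 0, 3, 0, 0⟩, ⟨1, 0, 2, 2⟩⟩,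
   ⟨4, 2, ⟨0, 0, 0, 0, 0⟩, ⟨0, 0, 0, 0, 0⟩, false, 0, ⟨6, 0, 3, 0, 0⟩, ⟨1, 0, 2, 2⟩, ⟨6, 0, 3, 0, 0⟩, ⟨1, 0, 2, 2⟩⟩,
   ⟨4, 3, ⟨0, 0, 0, 0, 0⟩, ⟨0, 0, 0, 0, 0⟩, false, 0, ⟨6, 0, 3, 0, 0⟩, ⟨1, 0, 2, 2⟩, ⟨6, 0, 3, 0, 0⟩, ⟨1, 0, 2, 2⟩⟩,
   ⟨4, 4, ⟨0, 0, 0, 0, 0⟩, ⟨0, 0, 0, 0, 0⟩, false, 0, ⟨6, 0, 3, 0, 0⟩, ⟨1, 0, 2, 2⟩, ⟨6, 0, 3, 0, 0⟩, ⟨1, 0, 2, 2⟩⟩,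
   ⟨4, 5, ⟨0, 0, 0, 0, 0⟩, ⟨0, 0, 0, 0, 0⟩, false, 0, ⟨6, 0, 3, 0, 0⟩, ⟨1, 0, 2, 2⟩, ⟨6, 0, 3, 0, 0⟩, ⟨1, 0, 2, 2⟩⟩,
   ⟨4, 6, ⟨0, 0, 0, 0, 0⟩, ⟨0, 0, 0, 0, 0⟩, false, 0, ⟨6, 0, 3, 0, 0⟩, ⟨1, 0, 2, 2⟩, ⟨6, 0, 3, 0, 0⟩, ⟨1, 0, 2, 2⟩⟩,
   ⟨5, 1, ⟨0, 3, 0, 0, 4⟩, ⟨1, 0, 0, 2, 0⟩, false, 0, ⟨0, 0, 6, 0, 0⟩, ⟨1, 0, 0, 0⟩, ⟨0, 0, 0, 0, 0⟩, ⟨0, 0, 0, 0⟩⟩,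
   ⟨5, 2, ⟨0, 0, 0, 0, 0⟩, ⟨0, 0, 0, 0, 0⟩, false, 0, ⟨6, 0, 3, 0, 0⟩, ⟨1, 0, 2, 2⟩, ⟨6, 0, 3, 0, 0⟩, ⟨1, 0, 2, 2⟩⟩,
   ⟨5, 3, ⟨0, 0, 0, 0, 0⟩, ⟨0, 0, 0, 0, 0⟩, false, 0, ⟨6, 0, 3, 0, 0⟩, ⟨1, 0, 2, 2⟩, ⟨6, 0, 3, 0, 0⟩, ⟨1, 0, 2, 2⟩⟩,
   ⟨5, 4, ⟨0, 0, 0, 0, 0⟩, ⟨0, 0, 0, 0, 0⟩, false, 0, ⟨6, 0, 3, 0, 0⟩, ⟨1, 0, 2, 2⟩, ⟨6, 0, 3, 0, 0⟩, ⟨1, 0, 2, 2⟩⟩,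
   ⟨5, 5, ⟨0, 0, 0, 0, 0⟩, ⟨0, 0, 0, 0, 0⟩, false, 0, ⟨6, 0, 3, 0, 0⟩, ⟨1, 0, 2, 2⟩, ⟨6, 0, 3, 0, 0⟩, ⟨1, 0, 2, 2⟩⟩,
   ⟨5, 6, ⟨0, 0, 0, 0, 0⟩, ⟨0, 0, 0, 0, 0⟩, false, 0, ⟨6, 0, 3, 0, 0⟩, ⟨1, 0, 2, 2⟩, ⟨6, 0, 3, 0, 0⟩, ⟨1, 0, 2, 2⟩⟩,
   ⟨5, 7, ⟨36, 0, 0, 0, 0⟩, ⟨0, 8, 7, 0, 7⟩, false, 0, ⟨0, 0, 0, 0, 6⟩, ⟨1, 2, 0, 0⟩, ⟨0, 0, 0, 0, 0⟩, ⟨0, 0, 0, 0⟩⟩,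
   ⟨6, 2, ⟨0, 0, 0, 0, 0⟩, ⟨0, 0, 0, 0, 0⟩, false, 0, ⟨6, 0, 3, 0, 0⟩, ⟨1, 0, 2, 2⟩, ⟨6, 0, 3, 0, 0⟩, ⟨1, 0, 2, 2⟩⟩,
   ⟨6, 3, ⟨0, 0, 0, 0, 0⟩, ⟨0, 0, 0, 0, 0⟩, false, 0, ⟨6, 0, 3, 0, 0⟩, ⟨1, 0, 2, 2⟩, ⟨6, 0, 3, 0, 0⟩, ⟨1, 0, 2, 2⟩⟩,
   ⟨6, 4, ⟨0, 0, 0, 0, 0⟩, ⟨0, 0, 0, 0, 0⟩, false, 0, ⟨6, 0, 3, 0, 0⟩, ⟨1, 0, 2, 2⟩, ⟨6, 0, 3, 0, 0⟩, ⟨1, 0, 2, 2⟩⟩,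
   ⟨6, 5, ⟨0, 0, 0, 0, 0⟩, ⟨0, 0, 0, 0, 0⟩, false, 0, ⟨6, 0, 3, 0, 0⟩, ⟨1, 0, 2, 2⟩, ⟨6, 0, 3, 0, 0⟩, ⟨1, 0, 2, 2⟩⟩,
   ⟨6, 6, ⟨13, 0, 0, 0, 0⟩, ⟨0, 5, 0, 2, 2⟩, false, 0, ⟨0, 0, 3, 0, 0⟩, ⟨0, 1, 0, 1⟩, ⟨0, 0, 0, 0, 0⟩, ⟨0, 0, 0, 0⟩⟩,
   ⟨7, 2, ⟨0, 6, 3, 0, 9⟩, ⟨3, 0, 0, 6, 0⟩, false, 0, ⟨0, 0, 0, 0, 6⟩, ⟨1, 1, 0, 0⟩, ⟨0, 0, 0, 0, 0⟩, ⟨0, 0, 0, 0⟩⟩,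
   ⟨7, 3, ⟨0, 0, 0, 0, 0⟩, ⟨0, 0, 0, 0, 0⟩, false, 0, ⟨6, 0, 3, 0, 0⟩, ⟨1, 0, 2, 2⟩, ⟨6, 0, 3, 0, 0⟩, ⟨1, 0, 2, 2⟩⟩,
   ⟨7, 4, ⟨0, 0, 0, 0, 0⟩, ⟨0, 0, 0, 0, 0⟩, false, 0, ⟨6, 0, 3, 0, 0⟩, ⟨1, 0, 2, 2⟩, ⟨6, 0, 3, 0, 0⟩, ⟨1, 0, 2, 2⟩⟩,
   ⟨7, 5, ⟨13, 0, 0, 0, 0⟩, ⟨0, 5, 0, 2, 2⟩, false, 0, ⟨0, 0, 3, 0, 0⟩, ⟨0, 1, 0, 1⟩, ⟨0, 0, 0, 0, 0⟩, ⟨0, 0, 0, 0⟩⟩,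
   ⟨8, 3, ⟨4, 0, 3, 0, 2⟩, ⟨0, 3, 0, 3, 0⟩, false, 0, ⟨0, 0, 0, 6, 3⟩, ⟨1, 0, 0, 0⟩, ⟨0, 0, 0, 0, 0⟩, ⟨0, 0, 0, 0⟩⟩,
   ⟨8, 4, ⟨16, 0, 1, 0, 0⟩, ⟨0, 7, 0, 3, 2⟩, false, 0, ⟨0, 0, 0, 0, 6⟩, ⟨1, 1, 0, 0⟩, ⟨0, 0, 0, 0, 0⟩, ⟨0, 0, 0, 0⟩⟩],
  [⟨0, 3, ⟨14, 2, 0, 8, 0⟩, ⟨0, 0, 7, 0, 2⟩, true, 15, ⟨0, 0, 0, 0, 0⟩, ⟨0, 0, 0, 0⟩, ⟨0, 0, 0, 0, 0⟩, ⟨0, 0, 0, 0⟩⟩,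
   ⟨1, 2, ⟨0, 5, 0, 3, 3⟩, ⟨4, 0, 2, 0, 0⟩, false, 0, ⟨0, 0, 0, 3, 6⟩, ⟨1, 0, 0, 0⟩, ⟨0, 0, 0, 0, 0⟩, ⟨0, 0, 0, 0⟩⟩,
   ⟨1, 3, ⟨2, 0, 0, 0, 0⟩, ⟨0, 0, 1, 0, 0⟩, false, 0, ⟨1, 3, 0, 8, 2⟩, ⟨1, 0, 0, 0⟩, ⟨1, 3, 0, 8, 2⟩, ⟨1, 0, 0, 0⟩⟩,
   ⟨2, 1, ⟨0, 5, 0, 3, 3⟩, ⟨4, 0, 2, 0, 0⟩, false, 0, ⟨0, 0, 0, 3, 6⟩, ⟨1, 0, 0, 0⟩, ⟨0, 0, 0, 0, 0⟩, ⟨0, 0, 0, 0⟩⟩,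
   ⟨2, 2, ⟨2, 0, 0, 0, 0⟩, ⟨0, 0, 1, 0, 0⟩, false, 0, ⟨1, 3, 0, 8, 2⟩, ⟨1, 0, 0, 0⟩, ⟨1, 3, 0, 8, 2⟩, ⟨1, 0, 0, 0⟩⟩,
   ⟨2, 3, ⟨2, 0, 0, 0, 0⟩, ⟨0, 0, 1, 0, 0⟩, false, 0, ⟨1, 3, 0, 8, 2⟩, ⟨1, 0, 0, 0⟩, ⟨1, 3, 0, 8, 2⟩, ⟨1, 0, 0, 0⟩⟩,
   ⟨2, 4, ⟨21, 0, 0, 2, 0⟩, ⟨0, 3, 7, 0, 4⟩, false, 0, ⟨0, 0, 0, 0, 6⟩, ⟨0, 1, 1, 0⟩, ⟨0, 0, 0, 0, 0⟩, ⟨0, 0, 0, 0⟩⟩,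
   ⟨3, 0, ⟨0, 10, 0, 1, 8⟩, ⟨7, 0, 2, 0, 0⟩, true, 5, ⟨0, 0, 0, 0, 0⟩, ⟨0, 0, 0, 0⟩, ⟨0, 0, 0, 0, 0⟩, ⟨0, 0, 0, 0⟩⟩,
   ⟨3, 1, ⟨2, 0, 0, 0, 0⟩, ⟨0, 0, 1, 0, 0⟩, false, 0, ⟨1, 3, 0, 8, 2⟩, ⟨1, 0, 0, 0⟩, ⟨1, 3, 0, 8, 2⟩, ⟨1, 0, 0, 0⟩⟩,
   ⟨3, 2, ⟨2, 0, 0, 0, 0⟩, ⟨0, 0, 1, 0, 0⟩, false, 0, ⟨1, 3, 0, 8, 2⟩, ⟨1, 0, 0, 0⟩, ⟨1, 3, 0, 8, 2⟩, ⟨1, 0, 0, 0⟩⟩,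
   ⟨3, 3, ⟨2, 0, 0, 0, 0⟩, ⟨0, 0, 1, 0, 0⟩, false, 0, ⟨1, 3, 0, 8, 2⟩, ⟨1, 0, 0, 0⟩, ⟨1, 3, 0, 8, 2⟩, ⟨1, 0, 0, 0⟩⟩,
   ⟨3, 4, ⟨2, 0, 0, 0, 0⟩, ⟨0, 0, 1, 0, 0⟩, false, 0, ⟨1, 3, 0, 8, 2⟩, ⟨1, 0, 0, 0⟩, ⟨1, 3, 0, 8, 2⟩, ⟨1, 0, 0, 0⟩⟩,
   ⟨4, 1, ⟨2, 0, 0, 0, 0⟩, ⟨0, 0, 1, 0, 0⟩, false, 0, ⟨1, 3, 0, 8, 2⟩, ⟨1, 0, 0, 0⟩, ⟨1, 3, 0, 8, 2⟩, ⟨1, 0, 0, 0⟩⟩,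
   ⟨4, 2, ⟨2, 0, 0, 0, 0⟩, ⟨0, 0, 1, 0, 0⟩, false, 0, ⟨1, 3, 0, 8, 2⟩, ⟨1, 0, 0, 0⟩, ⟨1, 3, 0, 8, 2⟩, ⟨1, 0, 0, 0⟩⟩,
   ⟨4, 3, ⟨2, 0, 0, 0, 0⟩, ⟨0, 0, 1, 0, 0⟩, false, 0, ⟨1, 3, 0, 8, 2⟩, ⟨1, 0, 0, 0⟩, ⟨1, 3, 0, 8, 2⟩, ⟨1, 0, 0, 0⟩⟩,
   ⟨4, 4, ⟨2, 0, 0, 0, 0⟩, ⟨0, 0, 1, 0, 0⟩, false, 0, ⟨1, 3, 0, 8, 2⟩, ⟨1, 0, 0, 0⟩, ⟨1, 3, 0, 8, 2⟩, ⟨1, 0, 0, 0⟩⟩,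
   ⟨4, 5, ⟨21, 0, 0, 2, 0⟩, ⟨0, 3, 7, 0, 4⟩, false, 0, ⟨0, 0, 0, 0, 6⟩, ⟨0, 1, 1, 0⟩, ⟨0, 0, 0, 0, 0⟩, ⟨0, 0, 0, 0⟩⟩,
   ⟨5, 1, ⟨1, 3, 0, 0, 4⟩, ⟨0, 0, 1, 2, 0⟩, false, 0, ⟨0, 0, 0, 0, 3⟩, ⟨2, 0, 1, 0⟩, ⟨0, 0, 0, 0, 0⟩, ⟨0, 0, 0, 0⟩⟩,
   ⟨5, 2, ⟨2, 0, 0, 0, 0⟩, ⟨0, 0, 1, 0, 0⟩, false, 0, ⟨1, 3, 0, 8, 2⟩, ⟨1, 0, 0, 0⟩, ⟨1, 3, 0, 8, 2⟩, ⟨1, 0, 0, 0⟩⟩,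
   ⟨5, 3, ⟨2, 0, 0, 0, 0⟩, ⟨0, 0, 1, 0, 0⟩, false, 0, ⟨1, 3, 0, 8, 2⟩, ⟨1, 0, 0, 0⟩, ⟨1, 3, 0, 8, 2⟩, ⟨1, 0, 0, 0⟩⟩,
   ⟨5, 4, ⟨2, 0, 0, 0, 0⟩, ⟨0, 0, 1, 0, 0⟩, false, 0, ⟨1, 3, 0, 8, 2⟩, ⟨1, 0, 0, 0⟩, ⟨1, 3, 0, 8, 2⟩, ⟨1, 0, 0, 0⟩⟩,
   ⟨5, 5, ⟨2, 0, 0, 0, 0⟩, ⟨0, 0, 1, 0, 0⟩, false, 0, ⟨1, 3, 0, 8, 2⟩, ⟨1, 0, 0, 0⟩, ⟨1, 3, 0, 8, 2⟩, ⟨1, 0, 0, 0⟩⟩,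
   ⟨6, 2, ⟨2, 0, 0, 0, 0⟩, ⟨0, 0, 1, 0, 0⟩, false, 0, ⟨1, 3, 0, 8, 2⟩, ⟨1, 0, 0, 0⟩, ⟨1, 3, 0, 8, 2⟩, ⟨1, 0, 0, 0⟩⟩,
   ⟨6, 3, ⟨2, 0, 0, 0, 0⟩, ⟨0, 0, 1, 0, 0⟩, false, 0, ⟨1, 3, 0, 8, 2⟩, ⟨1, 0, 0, 0⟩, ⟨1, 3, 0, 8, 2⟩, ⟨1, 0, 0, 0⟩⟩,
   ⟨6, 4, ⟨2, 0, 0, 0, 0⟩, ⟨0, 0, 1, 0, 0⟩, false, 0, ⟨1, 3, 0, 8, 2⟩, ⟨1, 0, 0, 0⟩, ⟨1, 3, 0, 8, 2⟩, ⟨1, 0, 0, 0⟩⟩,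
   ⟨6, 5, ⟨2, 0, 0, 0, 0⟩, ⟨0, 0, 1, 0, 0⟩, false, 0, ⟨1, 3, 0, 8, 2⟩, ⟨1, 0, 0, 0⟩, ⟨1, 3, 0, 8, 2⟩, ⟨1, 0, 0, 0⟩⟩,
   ⟨6, 6, ⟨46, 0, 0, 0, 0⟩, ⟨0, 8, 10, 1, 8⟩, true, 13, ⟨0, 0, 0, 0, 0⟩, ⟨0, 0, 0, 0⟩, ⟨0, 0, 0, 0, 0⟩, ⟨0, 0, 0, 0⟩⟩,
   ⟨7, 2, ⟨1, 3, 0, 0, 4⟩, ⟨0, 0, 1, 2, 0⟩, false, 0, ⟨0, 0, 0, 0, 3⟩, ⟨2, 0, 1, 0⟩, ⟨0, 0, 0, 0, 0⟩, ⟨0, 0, 0, 0⟩⟩,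
   ⟨7, 3, ⟨2, 0, 0, 0, 0⟩, ⟨0, 0, 1, 0, 0⟩, false, 0, ⟨1, 3, 0, 8, 2⟩, ⟨1, 0, 0, 0⟩, ⟨1, 3, 0, 8, 2⟩, ⟨1, 0, 0, 0⟩⟩,
   ⟨7, 4, ⟨2, 0, 0, 0, 0⟩, ⟨0, 0, 1, 0, 0⟩, false, 0, ⟨1, 3, 0, 8, 2⟩, ⟨1, 0, 0, 0⟩, ⟨1, 3, 0, 8, 2⟩, ⟨1, 0, 0, 0⟩⟩,
   ⟨7, 5, ⟨23, 0, 0, 0, 0⟩, ⟨0, 5, 3, 3, 3⟩, false, 0, ⟨0, 0, 0, 0, 3⟩, ⟨1, 0, 0, 0⟩, ⟨0, 0, 0, 0, 0⟩, ⟨0, 0, 0, 0⟩⟩,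
   ⟨8, 3, ⟨2, 0, 0, 0, 0⟩, ⟨0, 0, 1, 0, 0⟩, false, 0, ⟨1, 3, 0, 8, 2⟩, ⟨1, 0, 0, 0⟩, ⟨1, 3, 0, 8, 2⟩, ⟨1, 0, 0, 0⟩⟩,
   ⟨8, 4, ⟨23, 0, 0, 0, 0⟩, ⟨0, 5, 3, 3, 3⟩, false, 0, ⟨0, 0, 0, 0, 3⟩, ⟨1, 0, 0, 0⟩, ⟨0, 0, 0, 0, 0⟩, ⟨0, 0, 0, 0⟩⟩,
   ⟨9, 3, ⟨23, 1, 1, 0, 7⟩, ⟨0, 0, 0, 11, 0⟩, true, 14, ⟨0, 0, 0, 0, 0⟩, ⟨0, 0, 0, 0⟩, ⟨0, 0, 0, 0, 0⟩, ⟨0, 0, 0, 0⟩⟩]]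

def tb4 : List (List En) := [
  [],
  [],
  [],
  [],
  [⟨3, 0, ⟨0, 0, 3, 0, 4⟩, ⟨0, 3, 0, 0, 0⟩, false, 0, ⟨0, 0, 3, 0, 0⟩, ⟨0, 1, 0, 0⟩, ⟨0, 0, 0, 0, 0⟩, ⟨0, 0, 0, 0⟩⟩,
   ⟨3, 1, ⟨0, 0, 2, 1, 0⟩, ⟨1, 2, 0, 0, 0⟩, false, 0, ⟨0, 0, 3, 0, 0⟩, ⟨0, 1, 0, 0⟩, ⟨0, 0, 0, 0, 0⟩, ⟨0, 0, 0, 0⟩⟩,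
   ⟨3, 2, ⟨0, 0, 2, 1, 0⟩, ⟨1, 2, 0, 0, 0⟩, false, 0, ⟨0, 0, 3, 0, 0⟩, ⟨0, 1, 0, 0⟩, ⟨0, 0, 0, 0, 0⟩, ⟨0, 0, 0, 0⟩⟩,
   ⟨3, 3, ⟨0, 0, 2, 1, 0⟩, ⟨1, 2, 0, 0, 0⟩, false, 0, ⟨0, 0, 3, 0, 0⟩, ⟨0, 1, 0, 0⟩, ⟨0, 0, 0, 0, 0⟩, ⟨0, 0, 0, 0⟩⟩,
   ⟨3, 4, ⟨0, 0, 2, 1, 0⟩, ⟨1, 2, 0, 0, 0⟩, false, 0, ⟨0, 0, 3, 0, 0⟩, ⟨0, 1, 0, 0⟩, ⟨0, 0, 0, 0, 0⟩, ⟨0, 0, 0, 0⟩⟩,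
   ⟨3, 5, ⟨0, 0, 2, 1, 0⟩, ⟨1, 2, 0, 0, 0⟩, false, 0, ⟨0, 0, 3, 0, 0⟩, ⟨0, 1, 0, 0⟩, ⟨0, 0, 0, 0, 0⟩, ⟨0, 0, 0, 0⟩⟩,
   ⟨3, 6, ⟨17, 0, 0, 1, 0⟩, ⟨0, 8, 1, 0, 3⟩, false, 0, ⟨0, 0, 0, 3, 8⟩, ⟨0, 0, 0, 1⟩, ⟨0, 0, 0, 0, 0⟩, ⟨0, 0, 0, 0⟩⟩,
   ⟨4, 1, ⟨1, 0, 2, 0, 1⟩, ⟨0, 2, 0, 1, 0⟩, false, 0, ⟨0, 0, 3, 0, 0⟩, ⟨0, 1, 0, 0⟩, ⟨0, 0, 0, 0, 0⟩, ⟨0, 0, 0, 0⟩⟩,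
   ⟨4, 2, ⟨0, 0, 1, 0, 0⟩, ⟨0, 1, 0, 0, 0⟩, false, 0, ⟨3, 6, 0, 0, 0⟩, ⟨2, 0, 1, 1⟩, ⟨0, 0, 0, 0, 0⟩, ⟨0, 0, 0, 0⟩⟩,
   ⟨4, 3, ⟨0, 0, 1, 0, 0⟩, ⟨0, 1, 0, 0, 0⟩, false, 0, ⟨3, 6, 0, 0, 0⟩, ⟨2, 0, 1, 1⟩, ⟨0, 0, 0, 0, 0⟩, ⟨0, 0, 0, 0⟩⟩,
   ⟨4, 4, ⟨0, 0, 1, 0, 0⟩, ⟨0, 1, 0, 0, 0⟩, false, 0, ⟨3, 6, 0, 0, 0⟩, ⟨2, 0, 1, 1⟩, ⟨0, 0, 0, 0, 0⟩, ⟨0, 0, 0, 0⟩⟩,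
   ⟨4, 5, ⟨7, 0, 1, 0, 0⟩, ⟨0, 4, 0, 1, 1⟩, false, 0, ⟨0, 0, 3, 0, 0⟩, ⟨0, 1, 0, 0⟩, ⟨0, 0, 0, 0, 0⟩, ⟨0, 0, 0, 0⟩⟩,
   ⟨5, 2, ⟨4, 0, 3, 0, 1⟩, ⟨0, 4, 0, 2, 0⟩, false, 0, ⟨0, 0, 0, 0, 6⟩, ⟨0, 1, 0, 1⟩, ⟨0, 0, 0, 0, 0⟩, ⟨0, 0, 0, 0⟩⟩,
   ⟨5, 3, ⟨3, 0, 2, 0, 0⟩, ⟨0, 3, 0, 1, 0⟩, false, 0, ⟨0, 0, 0, 3, 6⟩, ⟨0, 0, 0, 1⟩, ⟨0, 0, 0, 0, 0⟩, ⟨0, 0, 0, 0⟩⟩,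
   ⟨5, 4, ⟨10, 0, 2, 0, 0⟩, ⟨0, 6, 0, 2, 1⟩, false, 0, ⟨0, 0, 8, 8, 3⟩, ⟨0, 1, 0, 0⟩, ⟨0, 0, 0, 0, 0⟩, ⟨0, 0, 0, 0⟩⟩],
  [⟨2, 1, ⟨0, 0, 1, 2, 1⟩, ⟨2, 1, 0, 0, 0⟩, false, 0, ⟨0, 0, 3, 0, 6⟩, ⟨0, 1, 0, 0⟩, ⟨0, 0, 0, 0, 0⟩, ⟨0, 0, 0, 0⟩⟩,
   ⟨2, 2, ⟨0, 0, 1, 1, 0⟩, ⟨1, 1, 0, 0, 0⟩, false, 0, ⟨0, 8, 1, 6, 5⟩, ⟨1, 0, 0, 0⟩, ⟨0, 0, 0, 0, 0⟩, ⟨0, 0, 0, 0⟩⟩,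
   ⟨2, 3, ⟨0, 0, 1, 1, 0⟩, ⟨1, 1, 0, 0, 0⟩, false, 0, ⟨0, 8, 1, 6, 5⟩, ⟨1, 0, 0, 0⟩, ⟨0, 0, 0, 0, 0⟩, ⟨0, 0, 0, 0⟩⟩,
   ⟨2, 4, ⟨10, 0, 0, 2, 0⟩, ⟨0, 4, 2, 0, 2⟩, false, 0, ⟨0, 1, 5, 3, 1⟩, ⟨0, 1, 0, 0⟩, ⟨0, 0, 0, 0, 0⟩, ⟨0, 0, 0, 0⟩⟩,
   ⟨3, 0, ⟨0, 0, 0, 0, 3⟩, ⟨0, 0, 0, 0, 0⟩, false, 0, ⟨0, 3, 6, 6, 0⟩, ⟨1, 0, 0, 0⟩, ⟨0, 0, 0, 0, 0⟩, ⟨0, 0, 0, 0⟩⟩,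
   ⟨3, 1, ⟨0, 0, 0, 0, 0⟩, ⟨0, 0, 0, 0, 0⟩, false, 0, ⟨6, 0, 3, 0, 0⟩, ⟨1, 0, 2, 2⟩, ⟨6, 0, 3, 0, 0⟩, ⟨1, 0, 2, 2⟩⟩,
   ⟨3, 2, ⟨0, 0, 0, 0, 0⟩, ⟨0, 0, 0, 0, 0⟩, false, 0, ⟨6, 0, 3, 0, 0⟩, ⟨1, 0, 2, 2⟩, ⟨6, 0, 3, 0, 0⟩, ⟨1, 0, 2, 2⟩⟩,
   ⟨3, 3, ⟨0, 0, 0, 0, 0⟩, ⟨0, 0, 0, 0, 0⟩, false, 0, ⟨6, 0, 3, 0, 0⟩, ⟨1, 0, 2, 2⟩, ⟨6, 0, 3, 0, 0⟩, ⟨1, 0, 2, 2⟩⟩,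
   ⟨3, 4, ⟨0, 0, 0, 0, 0⟩, ⟨0, 0, 0, 0, 0⟩, false, 0, ⟨6, 0, 3, 0, 0⟩, ⟨1, 0, 2, 2⟩, ⟨6, 0, 3, 0, 0⟩, ⟨1, 0, 2, 2⟩⟩,
   ⟨4, 1, ⟨0, 0, 0, 0, 0⟩, ⟨0, 0, 0, 0, 0⟩, false, 0, ⟨6, 0, 3, 0, 0⟩, ⟨1, 0, 2, 2⟩, ⟨6, 0, 3, 0, 0⟩, ⟨1, 0, 2, 2⟩⟩,
   ⟨4, 2, ⟨0, 0, 0, 0, 0⟩, ⟨0, 0, 0, 0, 0⟩, false, 0, ⟨6, 0, 3, 0, 0⟩, ⟨1, 0, 2, 2⟩, ⟨6, 0, 3, 0, 0⟩, ⟨1, 0, 2, 2⟩⟩,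
   ⟨4, 3, ⟨0, 0, 0, 0, 0⟩, ⟨0, 0, 0, 0, 0⟩, false, 0, ⟨6, 0, 3, 0, 0⟩, ⟨1, 0, 2, 2⟩, ⟨6, 0, 3, 0, 0⟩, ⟨1, 0, 2, 2⟩⟩,
   ⟨4, 4, ⟨0, 0, 0, 0, 0⟩, ⟨0, 0, 0, 0, 0⟩, false, 0, ⟨6, 0, 3, 0, 0⟩, ⟨1, 0, 2, 2⟩, ⟨6, 0, 3, 0, 0⟩, ⟨1, 0, 2, 2⟩⟩,
   ⟨4, 5, ⟨18, 0, 0, 0, 0⟩, ⟨0, 6, 3, 0, 3⟩, false, 0, ⟨0, 1, 2, 6, 8⟩, ⟨0, 2, 0, 0⟩, ⟨0, 0, 0, 0, 0⟩, ⟨0, 0, 0, 0⟩⟩,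
   ⟨5, 1, ⟨2, 0, 1, 0, 3⟩, ⟨0, 1, 0, 2, 0⟩, false, 0, ⟨0, 0, 3, 0, 6⟩, ⟨0, 1, 0, 0⟩, ⟨0, 0, 0, 0, 0⟩, ⟨0, 0, 0, 0⟩⟩,
   ⟨5, 2, ⟨0, 0, 0, 0, 0⟩, ⟨0, 0, 0, 0, 0⟩, false, 0, ⟨6, 0, 3, 0, 0⟩, ⟨1, 0, 2, 2⟩, ⟨6, 0, 3, 0, 0⟩, ⟨1, 0, 2, 2⟩⟩,
   ⟨5, 3, ⟨0, 0, 0, 0, 0⟩, ⟨0, 0, 0, 0, 0⟩, false, 0, ⟨6, 0, 3, 0, 0⟩, ⟨1, 0, 2, 2⟩, ⟨6, 0, 3, 0, 0⟩, ⟨1, 0, 2, 2⟩⟩,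
   ⟨5, 4, ⟨7, 0, 0, 0, 0⟩, ⟨0, 3, 0, 1, 1⟩, false, 0, ⟨1, 3, 6, 5, 8⟩, ⟨1, 0, 0, 0⟩, ⟨0, 0, 0, 0, 0⟩, ⟨0, 0, 0, 0⟩⟩,
   ⟨6, 2, ⟨4, 0, 2, 0, 1⟩, ⟨0, 3, 0, 2, 0⟩, false, 0, ⟨0, 0, 0, 0, 3⟩, ⟨1, 0, 1, 1⟩, ⟨0, 0, 0, 0, 0⟩, ⟨0, 0, 0, 0⟩⟩,
   ⟨6, 3, ⟨10, 0, 1, 0, 0⟩, ⟨0, 5, 0, 2, 1⟩, false, 0, ⟨0, 0, 6, 3, 0⟩, ⟨0, 1, 0, 0⟩, ⟨0, 0, 0, 0, 0⟩, ⟨0, 0, 0, 0⟩⟩],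
  [⟨1, 2, ⟨11, 0, 0, 3, 0⟩, ⟨0, 4, 3, 0, 1⟩, false, 0, ⟨0, 0, 0, 3, 0⟩, ⟨0, 0, 0, 1⟩, ⟨0, 0, 0, 0, 0⟩, ⟨0, 0, 0, 0⟩⟩,
   ⟨2, 1, ⟨1, 0, 0, 1, 1⟩, ⟨0, 0, 1, 0, 0⟩, false, 0, ⟨0, 3, 0, 0, 3⟩, ⟨1, 0, 0, 0⟩, ⟨0, 0, 0, 0, 0⟩, ⟨0, 0, 0, 0⟩⟩,
   ⟨2, 2, ⟨2, 0, 0, 0, 0⟩, ⟨0, 0, 1, 0, 0⟩, false, 0, ⟨1, 3, 0, 8, 2⟩, ⟨1, 0, 0, 0⟩, ⟨1, 3, 0, 8, 2⟩, ⟨1, 0, 0, 0⟩⟩,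
   ⟨3, 0, ⟨2, 0, 0, 0, 3⟩, ⟨0, 0, 1, 0, 0⟩, false, 0, ⟨0, 3, 0, 0, 0⟩, ⟨1, 0, 0, 0⟩, ⟨0, 0, 0, 0, 0⟩, ⟨0, 0, 0, 0⟩⟩,
   ⟨3, 1, ⟨2, 0, 0, 0, 0⟩, ⟨0, 0, 1, 0, 0⟩, false, 0, ⟨1, 3, 0, 8, 2⟩, ⟨1, 0, 0, 0⟩, ⟨1, 3, 0, 8, 2⟩, ⟨1, 0, 0, 0⟩⟩,
   ⟨3, 2, ⟨2, 0, 0, 0, 0⟩, ⟨0, 0, 1, 0, 0⟩, false, 0, ⟨1, 3, 0, 8, 2⟩, ⟨1, 0, 0, 0⟩, ⟨1, 3, 0, 8, 2⟩, ⟨1, 0, 0, 0⟩⟩,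
   ⟨3, 3, ⟨13, 0, 0, 1, 0⟩, ⟨0, 3, 4, 0, 2⟩, false, 0, ⟨0, 3, 0, 0, 0⟩, ⟨0, 1, 0, 0⟩, ⟨0, 0, 0, 0, 0⟩, ⟨0, 0, 0, 0⟩⟩,
   ⟨4, 1, ⟨2, 0, 0, 0, 0⟩, ⟨0, 0, 1, 0, 0⟩, false, 0, ⟨1, 3, 0, 8, 2⟩, ⟨1, 0, 0, 0⟩, ⟨1, 3, 0, 8, 2⟩, ⟨1, 0, 0, 0⟩⟩,
   ⟨4, 2, ⟨2, 0, 0, 0, 0⟩, ⟨0, 0, 1, 0, 0⟩, false, 0, ⟨1, 3, 0, 8, 2⟩, ⟨1, 0, 0, 0⟩, ⟨1, 3, 0, 8, 2⟩, ⟨1, 0, 0, 0⟩⟩,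
   ⟨4, 3, ⟨2, 0, 0, 0, 0⟩, ⟨0, 0, 1, 0, 0⟩, false, 0, ⟨1, 3, 0, 8, 2⟩, ⟨1, 0, 0, 0⟩, ⟨1, 3, 0, 8, 2⟩, ⟨1, 0, 0, 0⟩⟩,
   ⟨5, 1, ⟨3, 0, 0, 0, 2⟩, ⟨0, 0, 1, 1, 0⟩, false, 0, ⟨0, 3, 0, 0, 0⟩, ⟨1, 0, 0, 0⟩, ⟨0, 0, 0, 0, 0⟩, ⟨0, 0, 0, 0⟩⟩,
   ⟨5, 2, ⟨2, 0, 0, 0, 0⟩, ⟨0, 0, 1, 0, 0⟩, false, 0, ⟨1, 3, 0, 8, 2⟩, ⟨1, 0, 0, 0⟩, ⟨1, 3, 0, 8, 2⟩, ⟨1, 0, 0, 0⟩⟩,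
   ⟨5, 3, ⟨2, 0, 0, 0, 0⟩, ⟨0, 0, 1, 0, 0⟩, false, 0, ⟨1, 3, 0, 8, 2⟩, ⟨1, 0, 0, 0⟩, ⟨1, 3, 0, 8, 2⟩, ⟨1, 0, 0, 0⟩⟩,
   ⟨5, 4, ⟨20, 0, 0, 0, 0⟩, ⟨0, 6, 4, 0, 3⟩, false, 0, ⟨0, 0, 0, 6, 0⟩, ⟨0, 1, 0, 0⟩, ⟨0, 0, 0, 0, 0⟩, ⟨0, 0, 0, 0⟩⟩,
   ⟨6, 2, ⟨2, 0, 0, 0, 0⟩, ⟨0, 0, 1, 0, 0⟩, false, 0, ⟨1, 3, 0, 8, 2⟩, ⟨1, 0, 0, 0⟩, ⟨1, 3, 0, 8, 2⟩, ⟨1, 0, 0, 0⟩⟩,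
   ⟨6, 3, ⟨9, 0, 0, 0, 0⟩, ⟨0, 3, 1, 1, 1⟩, false, 0, ⟨0, 3, 0, 0, 0⟩, ⟨0, 1, 0, 0⟩, ⟨0, 0, 0, 0, 0⟩, ⟨0, 0, 0, 0⟩⟩,
   ⟨7, 2, ⟨14, 0, 1, 0, 2⟩, ⟨0, 6, 0, 4, 0⟩, false, 0, ⟨0, 0, 0, 0, 6⟩, ⟨1, 0, 0, 1⟩, ⟨0, 0, 0, 0, 0⟩, ⟨0, 0, 0, 0⟩⟩]]

def tb5 : List (List En) := [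
  [],
  [],
  [],
  [],
  [],
  [⟨3, 0, ⟨0, 0, 3, 0, 4⟩, ⟨0, 3, 0, 0, 0⟩, false, 0, ⟨0, 0, 3, 0, 0⟩, ⟨0, 1, 0, 0⟩, ⟨0, 0, 0, 0, 0⟩, ⟨0, 0, 0, 0⟩⟩,
   ⟨3, 1, ⟨0, 0, 2, 1, 0⟩, ⟨1, 2, 0, 0, 0⟩, false, 0, ⟨0, 0, 3, 0, 0⟩, ⟨0, 1, 0, 0⟩, ⟨0, 0, 0, 0, 0⟩, ⟨0, 0, 0, 0⟩⟩,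
   ⟨3, 2, ⟨0, 0, 2, 1, 0⟩, ⟨1, 2, 0, 0, 0⟩, false, 0, ⟨0, 0, 3, 0, 0⟩, ⟨0, 1, 0, 0⟩, ⟨0, 0, 0, 0, 0⟩, ⟨0, 0, 0, 0⟩⟩,
   ⟨3, 3, ⟨17, 0, 0, 1, 0⟩, ⟨0, 8, 1, 0, 3⟩, false, 0, ⟨0, 0, 0, 3, 8⟩, ⟨0, 0, 0, 1⟩, ⟨0, 0, 0, 0, 0⟩, ⟨0, 0, 0, 0⟩⟩,
   ⟨4, 1, ⟨4, 0, 3, 0, 1⟩, ⟨0, 4, 0, 2, 0⟩, false, 0, ⟨0, 0, 0, 0, 6⟩, ⟨0, 1, 0, 1⟩, ⟨0, 0, 0, 0, 0⟩, ⟨0, 0, 0, 0⟩⟩,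
   ⟨4, 2, ⟨10, 0, 2, 0, 0⟩, ⟨0, 6, 0, 2, 1⟩, false, 0, ⟨0, 0, 8, 8, 3⟩, ⟨0, 1, 0, 0⟩, ⟨0, 0, 0, 0, 0⟩, ⟨0, 0, 0, 0⟩⟩],
  [⟨2, 1, ⟨11, 0, 0, 3, 0⟩, ⟨0, 4, 3, 0, 1⟩, false, 0, ⟨0, 0, 0, 3, 0⟩, ⟨0, 0, 0, 1⟩, ⟨0, 0, 0, 0, 0⟩, ⟨0, 0, 0, 0⟩⟩,
   ⟨3, 0, ⟨2, 0, 0, 0, 3⟩, ⟨0, 0, 1, 0, 0⟩, false, 0, ⟨0, 3, 0, 0, 0⟩, ⟨1, 0, 0, 0⟩, ⟨0, 0, 0, 0, 0⟩, ⟨0, 0, 0, 0⟩⟩,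
   ⟨3, 1, ⟨2, 0, 0, 0, 0⟩, ⟨0, 0, 1, 0, 0⟩, false, 0, ⟨1, 3, 0, 8, 2⟩, ⟨1, 0, 0, 0⟩, ⟨1, 3, 0, 8, 2⟩, ⟨1, 0, 0, 0⟩⟩,
   ⟨4, 1, ⟨2, 0, 0, 0, 0⟩, ⟨0, 0, 1, 0, 0⟩, false, 0, ⟨1, 3, 0, 8, 2⟩, ⟨1, 0, 0, 0⟩, ⟨1, 3, 0, 8, 2⟩, ⟨1, 0, 0, 0⟩⟩,
   ⟨4, 2, ⟨20, 0, 0, 0, 0⟩, ⟨0, 6, 4, 0, 3⟩, false, 0, ⟨0, 0, 0, 6, 0⟩, ⟨0, 1, 0, 0⟩, ⟨0, 0, 0, 0, 0⟩, ⟨0, 0, 0, 0⟩⟩,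
   ⟨5, 1, ⟨14, 0, 1, 0, 2⟩, ⟨0, 6, 0, 4, 0⟩, false, 0, ⟨0, 0, 0, 0, 6⟩, ⟨1, 0, 0, 1⟩, ⟨0, 0, 0, 0, 0⟩, ⟨0, 0, 0, 0⟩⟩]]

def tb6 : List (List En) := [
  [],
  [],
  [],
  [],
  [],
  [],
  [⟨3, 0, ⟨23, 0, 0, 0, 1⟩, ⟨0, 11, 0, 1, 0⟩, true, 6, ⟨0, 0, 0, 0, 0⟩, ⟨0, 0, 0, 0⟩, ⟨0, 0, 0, 0, 0⟩, ⟨0, 0, 0, 0⟩⟩]]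

def val (h : V5) (g : V4) (y : Pt) : ℕ := (dot5 h y.t + 6 * dot4 g y.f) % 9

def chkP (e : En) (y : Pt) : Bool :=
  Nat.ble (dot5 e.n y.t) (dot5 e.p y.t) &&
    (Nat.blt (dot5 e.n y.t) (dot5 e.p y.t) ||
      ((if e.v then Nat.beq y.i e.i else Nat.beq (val e.h0 e.g0 y) 0) &&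
        Nat.beq (val e.h1 e.g1 y) 0))

def chkE (q : V5) (e : En) : Bool :=
  Nat.beq (dot5 e.p q) (dot5 e.n q) && pts.all (chkP e) &&
    Nat.ble (dot5 e.n xp.t) (dot5 e.p xp.t) &&
    (e.v || !(Nat.beq (dot5 e.h0 q % 9) 0)) &&
    (Nat.blt (dot5 e.n xp.t) (dot5 e.p xp.t) || !(Nat.beq (dot5 e.h1 q % 9) (val e.h1 e.g1 xp)))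

def chkq (tb : List (List En)) (q : V5) : Bool :=
  fac.any (fun pn => Nat.blt (dot5 pn.1 q) (dot5 pn.2 q)) ||
    (tb.getD q.c []).any (fun e => Nat.beq e.q3 q.d && Nat.beq e.q4 q.e && chkE q e)

def chkAll (tb : List (List En)) (a : ℕ) : Bool :=
  (List.range 7).all fun b => (List.range 10).all fun c => (List.range 10).all fun d =>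
    chkq tb ⟨3, a, b, c, d⟩

theorem chk0 : chkAll tb0 0 = true := by decide +kernel

theorem chk1 : chkAll tb1 1 = true := by decide +kernel

theorem chk2 : chkAll tb2 2 = true := by decide +kernel

theorem chk3 : chkAll tb3 3 = true := by decide +kernel

theorem chk4 : chkAll tb4 4 = true := by decide +kernel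

theorem chk5 : chkAll tb5 5 = true := by decide +kernel

theorem chk6 : chkAll tb6 6 = true := by decide +kernel

theorem fac_ok : fac.all (fun pn => (xp :: pts).all
    (fun y => Nat.ble (dot5 pn.2 y.t) (dot5 pn.1 y.t))) = true := by decide +kernel

end Pool.Agent.H.MP_c34ff3_nt
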