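import Mathlib
import Pool.Agent.H.MP_c34ff3_nt.A

set_option autoImplicit false

namespace Pool.Agent.H.MP_c34ff3_nt

open Finset

section
variable {ι : Type} (S : Finset ι) (y : ι → Pt) (M : ℕ) (q : V5) (w : V4)

theorem sum5 (ha : ∑ k ∈ S, (y k).t.a = M * q.a) (hb : ∑ k ∈ S, (y k).t.b = M * q.b)
    (hc : ∑ k ∈ S, (y k).t.c = M * q.c) (hd : ∑ k ∈ S, (y k).t.d = M * q.d)
    (he : ∑ k ∈ S, (y k).t.e = M * q.e) (u : V5) :
    ∑ k ∈ S, dot5 u (y k).t = M * dot5 u q := by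
  simp only [dot5, sum_add_distrib, ← mul_sum, ha, hb, hc, hd, he]
  ring

theorem sum4 (ha : ∑ k ∈ S, (y k).f.a = 3 * w.a) (hb : ∑ k ∈ S, (y k).f.b = 3 * w.b)
    (hc : ∑ k ∈ S, (y k).f.c = 3 * w.c) (hd : ∑ k ∈ S, (y k).f.d = 3 * w.d) (u : V4) :
    ∑ k ∈ S, dot4 u (y k).f = 3 * dot4 u w := by
  simp only [dot4, sum_add_distrib, ← mul_sum, ha, hb, hc, hd]
  ring

theorem sound (tb : List (List En)) (hM : M % 9 = 1)
    (h5 : ∀ u, ∑ k ∈ S, dot5 u (y k).t = M * dot5 u q)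
    (h4 : ∀ u, ∑ k ∈ S, dot4 u (y k).f = 3 * dot4 u w)
    (hy : ∀ k ∈ S, y k = xp ∨ y k ∈ pts)
    (hx : ∀ k ∈ S, ∀ k' ∈ S, y k = xp → y k' = xp → k = k')
    (hv : ∀ i, (∀ k ∈ S, (y k).i = i) → False)
    (h : chkq tb q = true) : False := by
  classical
  have hM0 : 0 < M := by omega
  have tot : ∀ (u : V5) (g : V4),
      (∑ k ∈ S, (dot5 u (y k).t + 6 * dot4 g (y k).f)) % 9 = dot5 u q % 9 := by
    intro u g
    rw [sum_add_distrib, ← mul_sum, h5, h4]
    obtain ⟨j, hj⟩ : ∃ j, M = 9 * j + 1 := ⟨M / 9, by omega⟩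
    have : M * dot5 u q = 9 * (j * dot5 u q) + dot5 u q := by rw [hj]; ring
    omega
  simp only [chkq, Bool.or_eq_true, List.any_eq_true, Bool.and_eq_true] at h
  rcases h with ⟨pn, hpn, hlt⟩ | ⟨e, -, -, he⟩
  · have hf := fac_ok
    simp only [List.all_eq_true, Nat.ble_eq] at hf
    have hle : ∑ k ∈ S, dot5 pn.2 (y k).t ≤ ∑ k ∈ S, dot5 pn.1 (y k).t :=
      sum_le_sum (fun k hk => hf pn hpn (y k) (List.mem_cons.2 (hy k hk)))
    rw [h5, h5] at hle
    have := Nat.le_of_mul_le_mul_left hle hM0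
    simp only [Nat.blt_eq] at hlt
    omega
  · simp only [chkE, Bool.and_eq_true, Bool.or_eq_true, List.all_eq_true, Nat.beq_eq,
      Nat.ble_eq, Nat.blt_eq, Bool.not_eq_true', chkP] at he
    obtain ⟨⟨⟨⟨e1, e2⟩, e3⟩, e4⟩, e5⟩ := he
    have hle : ∀ k ∈ S, dot5 e.n (y k).t ≤ dot5 e.p (y k).t := by
      intro k hk
      rcases hy k hk with h | h
      · rw [h]; exact e3
      · exact (e2 _ h).1
    have heq : ∀ k ∈ S, dot5 e.n (y k).t = dot5 e.p (y k).t :=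
      (sum_eq_sum_iff_of_le hle).1 (by rw [h5, h5, e1])
    have hp : ∀ k ∈ S, y k ∈ pts →
        ((if e.v = true then Nat.beq (y k).i e.i else Nat.beq (val e.h0 e.g0 (y k)) 0) = true ∧
          val e.h1 e.g1 (y k) = 0) := by
      intro k hk h
      rcases (e2 _ h).2 with h' | h'
      · have := heq k hk
        omega
      · exact h'
    by_cases hex : ∃ k ∈ S, y k = xp
    · obtain ⟨k0, hk0, hk⟩ := hex
      have h1 := heq k0 hk0
      rw [hk] at h1
      rcases e5 with e5 | e5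
      · omega
      · have h2 := tot e.h1 e.g1
        rw [← add_sum_erase S _ hk0, hk] at h2
        have h3 : 9 ∣ ∑ k ∈ S.erase k0, (dot5 e.h1 (y k).t + 6 * dot4 e.g1 (y k).f) := by
          refine dvd_sum (fun k hk' => ?_)
          obtain ⟨c1, c2⟩ := mem_erase.1 hk'
          have := (hp k c2 ((hy k c2).resolve_left (fun h => c1 (hx k c2 k0 hk0 h hk)))).2
          exact Nat.dvd_of_mod_eq_zero this
        have h6 : dot5 e.h1 q % 9 = val e.h1 e.g1 xp := by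
          unfold val
          omega
        rw [h6] at e5
        simp at e5
    · have hall : ∀ k ∈ S, y k ∈ pts := fun k hk =>
        (hy k hk).resolve_left (fun h => hex ⟨k, hk, h⟩)
      rcases hv' : e.v with _ | _
      · rw [hv'] at e4 hp
        have h2 := tot e.h0 e.g0
        have h3 : 9 ∣ ∑ k ∈ S, (dot5 e.h0 (y k).t + 6 * dot4 e.g0 (y k).f) := by
          refine dvd_sum (fun k hk => ?_)
          have := (hp k hk (hall k hk)).1
          simp only [Bool.false_eq_true, if_false, Nat.beq_eq] at this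
          exact Nat.dvd_of_mod_eq_zero this
        have h6 : dot5 e.h0 q % 9 = 0 := by omega
        rw [h6] at e4
        simp at e4
      · rw [hv'] at hp
        refine hv e.i (fun k hk => ?_)
        have := (hp k hk (hall k hk)).1
        simpa using this

end

def P (i : ℕ) : Pt := pts.getD i xp

theorem P_mem : ∀ i < 16, P i ∈ pts := by
  intro i hi
  unfold P
  rw [List.getD_eq_getElem _ _ (by simpa [pts] using hi)]
  exact List.getElem_mem _

theorem P_16 : P 16 = xp := rfl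

theorem P_fact : ∀ i < 17, (P i).i = i ∧ (P i).t.a = 1 ∧ (P i).t.b ≤ 2 ∧ (P i).t.c ≤ 2 ∧
    (P i).t.d ≤ 3 ∧ (P i).t.e ≤ 3 := by decide +kernel

theorem chk_all (a b c d : ℕ) (ha : a < 7) (hb : b < 7) (hc : c < 10) (hd : d < 10) :
    ∃ tb, chkq tb ⟨3, a, b, c, d⟩ = true := by
  have key : ∀ tb, chkAll tb a = true → chkq tb ⟨3, a, b, c, d⟩ = true := by
    intro tb h
    simp only [chkAll, List.all_eq_true, List.mem_range] at h
    exact h b hb c hc d hd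
  interval_cases a
  · exact ⟨_, key _ chk0⟩
  · exact ⟨_, key _ chk1⟩
  · exact ⟨_, key _ chk2⟩
  · exact ⟨_, key _ chk3⟩
  · exact ⟨_, key _ chk4⟩
  · exact ⟨_, key _ chk5⟩
  · exact ⟨_, key _ chk6⟩

theorem bound {ι : Type} (S : Finset ι) (g : ι → ℕ) (M q B : ℕ) (hM : 0 < M)
    (hS : S.card = M * 3) (hg : ∀ k ∈ S, g k ≤ B) (h : ∑ k ∈ S, g k = M * q) : q ≤ 3 * B := by
  have := sum_le_card_nsmul S g B hg
  rw [h, hS, smul_eq_mul, mul_assoc] at this
  exact Nat.le_of_mul_le_mul_left this hM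

theorem main {ι : Type} (S : Finset ι) (τ : ι → ℕ) (M : ℕ) (hM : M % 9 = 1)
    (hτ : ∀ k, τ k < 17) (hS : S.card = M * 3)
    (hx : ∀ k k', τ k = 16 → τ k' = 16 → k = k')
    (hv : ∀ i, (∀ k ∈ S, τ k = i) → False)
    (hb : M ∣ ∑ k ∈ S, (P (τ k)).t.b) (hc : M ∣ ∑ k ∈ S, (P (τ k)).t.c)
    (hd : M ∣ ∑ k ∈ S, (P (τ k)).t.d) (he : M ∣ ∑ k ∈ S, (P (τ k)).t.e)
    (ga : 3 ∣ ∑ k ∈ S, (P (τ k)).f.a) (gb : 3 ∣ ∑ k ∈ S, (P (τ k)).f.b)
    (gc : 3 ∣ ∑ k ∈ S, (P (τ k)).f.c) (gd : 3 ∣ ∑ k ∈ S, (P (τ k)).f.d) : False := by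
  obtain ⟨q1, hb⟩ := hb
  obtain ⟨q2, hc⟩ := hc
  obtain ⟨q3, hd⟩ := hd
  obtain ⟨q4, he⟩ := he
  obtain ⟨w1, ga⟩ := ga
  obtain ⟨w2, gb⟩ := gb
  obtain ⟨w3, gc⟩ := gc
  obtain ⟨w4, gd⟩ := gd
  have hM0 : 0 < M := by omega
  have ha : ∑ k ∈ S, (P (τ k)).t.a = M * 3 := by
    rw [← hS, card_eq_sum_ones]
    exact sum_congr rfl (fun k _ => (P_fact _ (hτ k)).2.1)
  have b1 := bound S _ M q1 2 hM0 hS (fun k _ => (P_fact _ (hτ k)).2.2.1) hb
  have b2 := bound S _ M q2 2 hM0 hS (fun k _ => (P_fact _ (hτ k)).2.2.2.1) hc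
  have b3 := bound S _ M q3 3 hM0 hS (fun k _ => (P_fact _ (hτ k)).2.2.2.2.1) hd
  have b4 := bound S _ M q4 3 hM0 hS (fun k _ => (P_fact _ (hτ k)).2.2.2.2.2) he
  obtain ⟨tb, htb⟩ := chk_all q1 q2 q3 q4 (by omega) (by omega) (by omega) (by omega)
  refine sound S (fun k => P (τ k)) M ⟨3, q1, q2, q3, q4⟩ ⟨w1, w2, w3, w4⟩ tb hM
    (sum5 S _ M ⟨3, q1, q2, q3, q4⟩ ha hb hc hd he)
    (sum4 S _ ⟨w1, w2, w3, w4⟩ ga gb gc gd) ?_ ?_ ?_ htb
  · intro k _
    by_cases h : τ k = 16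
    · left
      rw [h]
      rfl
    · right
      exact P_mem _ (by have := hτ k; omega)
  · intro k _ k' _ h1 h2
    have c1 := (P_fact _ (hτ k)).1
    have c2 := (P_fact _ (hτ k')).1
    rw [h1] at c1
    rw [h2] at c2
    exact hx k k' c1.symm c2.symm
  · intro i h
    exact hv i (fun k hk => by rw [← h k hk]; exact (P_fact _ (hτ k)).1.symm)

theorem split_dvd (M A B : ℕ) (hM : M % 9 = 1) (h : M * 3 ∣ 3 * A + M * B) : M ∣ A ∧ 3 ∣ B := by
  have hc : Nat.Coprime M 3 := by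
    rw [Nat.coprime_comm, Nat.Prime.coprime_iff_not_dvd Nat.prime_three]
    omega
  constructor
  · have h1 : M ∣ 3 * A + M * B := (Dvd.intro _ rfl).trans h
    have h2 : M ∣ 3 * A := (Nat.dvd_add_left (Dvd.intro _ rfl)).1 h1
    exact hc.dvd_of_dvd_mul_left h2
  · have h1 : 3 ∣ 3 * A + M * B := (Dvd.intro_left _ rfl).trans h
    have h2 : 3 ∣ M * B := (Nat.dvd_add_right (Dvd.intro _ rfl)).1 h1
    exact hc.symm.dvd_of_dvd_mul_left h2

theorem final (M : ℕ) (hM : M % 9 = 1) :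
    ∃ f : Fin (2 ^ 4 * (M * 3 - 1) + 1) → (Fin 4 → ZMod (M * 3)),
      ∀ S : Finset (Fin (2 ^ 4 * (M * 3 - 1) + 1)), S.card = M * 3 → ∑ i ∈ S, f i ≠ 0 := by
  classical
  have hM0 : 0 < M := by omega
  have hm : 0 < M * 3 - 1 := by omega
  let τ : Fin (2 ^ 4 * (M * 3 - 1) + 1) → ℕ := fun k => k.val / (M * 3 - 1)
  let A : Fin 4 → ℕ → ℕ := fun j i => ![(P i).t.b, (P i).t.c, (P i).t.d, (P i).t.e] j
  let B : Fin 4 → ℕ → ℕ := fun j i => ![(P i).f.a, (P i).f.b, (P i).f.c, (P i).f.d] j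
  refine ⟨fun k j => ((3 * A j (τ k) + M * B j (τ k) : ℕ) : ZMod (M * 3)), fun S hS h0 => ?_⟩
  have key : ∀ j, M ∣ ∑ k ∈ S, A j (τ k) ∧ 3 ∣ ∑ k ∈ S, B j (τ k) := by
    intro j
    apply split_dvd _ _ _ hM
    have := congrFun h0 j
    rw [Finset.sum_apply, ← Nat.cast_sum, Pi.zero_apply, ZMod.natCast_eq_zero_iff,
      sum_add_distrib, ← mul_sum, ← mul_sum] at this
    exact this
  refine main S τ M hM ?_ hS ?_ ?_ (key 0).1 (key 1).1 (key 2).1 (key 3).1
    (key 0).2 (key 1).2 (key 2).2 (key 3).2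
  · intro k
    have := k.2
    simp only [τ]
    rw [Nat.div_lt_iff_lt_mul hm]
    omega
  · have : ∀ k, τ k = 16 → k.val = 16 * (M * 3 - 1) := by
      intro k h
      have h1 := k.2
      have h2 := Nat.div_mul_le_self k.val (M * 3 - 1)
      simp only [τ] at h
      rw [h] at h2
      omega
    intro k k' h h'
    exact Fin.ext (by rw [this k h, this k' h'])
  · intro i h
    have : S.card ≤ (range (M * 3 - 1)).card := by
      refine card_le_card_of_injOn (fun k => k.val % (M * 3 - 1)) ?_ ?_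
      · intro k _
        simp only [coe_range, Set.mem_Iio]
        exact Nat.mod_lt _ hm
      · intro k hk k' hk' e
        have h1 := h k hk
        have h2 := h k' hk'
        simp only [τ] at h1 h2 e
        apply Fin.ext
        rw [← Nat.div_add_mod k.val (M * 3 - 1), ← Nat.div_add_mod k'.val (M * 3 - 1), h1, h2, e]
    rw [card_range] at this
    omega

end Pool.Agent.H.MP_c34ff3_nt
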